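import Pool.Agent.R97.BD.Defs

/-! MP_5269d5_an: assembly. -/

open Finset Filter Topology MeasureTheory
open scoped ENNReal

namespace Pool.Agent.R97.BD

theorem digits_exist {q : ℕ} (hq : 2 ≤ q) {γ : ℝ} (h0 : 0 ≤ γ) (h1 : γ ≤ 1) :
    ∃ g : ℕ → ℕ, (∀ n, g n ≤ q - 1) ∧ HasSum (fun n => (g n : ℝ) / (q : ℝ) ^ (n + 1)) γ := by
  obtain ⟨d, _, hd⟩ := Real.ofDigits_SurjOn (b := q) (by omega) ⟨h0, h1⟩
  refine ⟨fun n => (d n : ℕ), fun n => by
    show (d n : ℕ) ≤ q - 1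
    have := (d n).2
    omega, ?_⟩
  have h := (Real.summable_ofDigitsTerm (digits := d)).hasSum
  have h2 : ∑' n, Real.ofDigitsTerm d n = γ := hd
  rw [h2] at h
  have h3 : (fun n => (((d n : ℕ) : ℕ) : ℝ) / (q : ℝ) ^ (n + 1)) = Real.ofDigitsTerm d := by
    funext n
    unfold Real.ofDigitsTerm
    rw [div_eq_mul_inv]
  rw [← h3] at h
  exact h

theorem encard_window (Λ : Set ℤ) (x h : ℝ) : ∃ T : Finset ℤ,
    (∀ z, z ∈ T ↔ z ∈ Λ ∧ x - h < z ∧ (z : ℝ) < x + h) ∧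
    ((fun z : ℤ => (z : ℝ)) '' Λ ∩ Set.Ioo (x - h) (x + h)).encard = T.card := by
  classical
  refine ⟨(Finset.Icc ⌊x - h⌋ ⌈x + h⌉).filter (fun z => z ∈ Λ ∧ x - h < z ∧ (z : ℝ) < x + h),
    ?_, ?_⟩
  · intro z
    rw [mem_filter, mem_Icc]
    refine ⟨fun h => h.2, fun hz => ⟨⟨?_, ?_⟩, hz⟩⟩
    · have : (⌊x - h⌋ : ℝ) ≤ z := (Int.floor_le _).trans hz.2.1.le
      exact_mod_cast this
    · have : (z : ℝ) ≤ ⌈x + h⌉ := hz.2.2.le.trans (Int.le_ceil _)
      exact_mod_cast this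
  · rw [← Set.encard_coe_eq_coe_finsetCard, ← Function.Injective.encard_image
      (f := fun z : ℤ => (z : ℝ)) Int.cast_injective]
    congr 1
    ext y
    simp only [Set.mem_inter_iff, Set.mem_image, Set.mem_Ioo, coe_filter, mem_Icc,
      Set.mem_setOf_eq]
    constructor
    · rintro ⟨⟨z, hz, rfl⟩, h1, h2⟩
      refine ⟨z, ⟨⟨?_, ?_⟩, hz, h1, h2⟩, rfl⟩
      · have : (⌊x - h⌋ : ℝ) ≤ z := (Int.floor_le _).trans h1.le
        exact_mod_cast this
      · have : (z : ℝ) ≤ ⌈x + h⌉ := h2.le.trans (Int.le_ceil _)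
        exact_mod_cast this
    · rintro ⟨z, ⟨_, hz, h1, h2⟩, rfl⟩
      exact ⟨⟨z, hz, rfl⟩, h1, h2⟩

theorem density_eq {Λ : Set ℤ} {s D : ℝ} (hD : 0 ≤ D)
    (hup : ∀ ε : ℝ, 0 < ε → ∃ h0 : ℝ, ∀ (h : ℝ) (T : Finset ℤ), h0 ≤ h →
      (↑T : Set ℤ) ⊆ Λ → (∀ x ∈ T, ∀ y ∈ T, ((x - y : ℤ) : ℝ) < 2 * h) →
      (T.card : ℝ) ≤ (D + ε) * h ^ s)
    (hlow : ∀ ε : ℝ, 0 < ε → ∃ (H X : ℕ → ℝ) , Tendsto H atTop atTop ∧ ∀ᶠ k in atTop,
      ∃ T : Finset ℤ, (↑T : Set ℤ) ⊆ Λ ∧ (∀ x ∈ T, X k - H k < x ∧ (x : ℝ) < X k + H k) ∧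
      (D - ε) * H k ^ s ≤ T.card) :
    upperDensity s ((fun z : ℤ => (z : ℝ)) '' Λ) = ENNReal.ofReal D := by
  unfold upperDensity
  set f : ℝ → ℝ≥0∞ := fun h => (⨆ x : ℝ, ((((fun z : ℤ => (z : ℝ)) '' Λ ∩
    Set.Ioo (x - h) (x + h)).encard : ℕ∞) : ℝ≥0∞)) / ENNReal.ofReal (h ^ s) with hf
  apply le_antisymm
  · refine ENNReal.le_of_forall_pos_le_add fun ε hε _ => ?_
    obtain ⟨h0, hh⟩ := hup ε (by exact_mod_cast hε)
    refine Filter.limsup_le_of_le (by isBoundedDefault) ?_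
    filter_upwards [eventually_ge_atTop h0, eventually_gt_atTop 0] with h h1 h2
    have hpos : 0 < h ^ s := Real.rpow_pos_of_pos h2 s
    simp only [hf]
    rw [ENNReal.div_le_iff (by simpa using hpos) ENNReal.ofReal_ne_top]
    refine iSup_le fun x => ?_
    obtain ⟨T, hT, hTc⟩ := encard_window Λ x h
    rw [hTc]
    have h3 := hh h T h1 (fun z hz => ((hT z).1 hz).1) (by
      intro a ha b hb
      have ha' := (hT a).1 ha
      have hb' := (hT b).1 hb
      push_cast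
      linarith [ha'.2.2, hb'.2.1])
    have h4 : ((T.card : ℕ∞) : ℝ≥0∞) = ENNReal.ofReal (T.card : ℝ) := by
      rw [ENNReal.ofReal_natCast]
      rfl
    have h5 : ENNReal.ofReal D + (ε : ℝ≥0∞) = ENNReal.ofReal (D + ε) := by
      rw [ENNReal.ofReal_add hD (NNReal.coe_nonneg ε), ENNReal.ofReal_coe_nnreal]
    rw [h4, h5, ← ENNReal.ofReal_mul (by positivity)]
    exact ENNReal.ofReal_le_ofReal h3
  · refine ENNReal.le_of_forall_pos_le_add fun ε hε _ => ?_
    obtain ⟨H, X, hH, hev⟩ := hlow ε (by exact_mod_cast hε)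
    have key : ENNReal.ofReal (D - ε) ≤ limsup f atTop := by
      refine Filter.le_limsup_of_frequently_le ?_ (by isBoundedDefault)
      refine hH.frequently ?_
      refine Eventually.frequently ?_
      filter_upwards [hev, hH.eventually_gt_atTop 0] with k hk hk0
      obtain ⟨T, h1, h2, h3⟩ := hk
      have hpos : 0 < H k ^ s := Real.rpow_pos_of_pos hk0 s
      simp only [hf]
      rw [ENNReal.le_div_iff_mul_le (Or.inl (by simpa using hpos)) (Or.inl ENNReal.ofReal_ne_top)]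
      refine le_iSup_of_le (X k) ?_
      obtain ⟨T', hT', hTc⟩ := encard_window Λ (X k) (H k)
      rw [hTc]
      have h4 : T.card ≤ T'.card := card_le_card fun z hz => (hT' z).2 ⟨h1 hz, h2 z hz⟩
      have h5 : ((T'.card : ℕ∞) : ℝ≥0∞) = ENNReal.ofReal (T'.card : ℝ) := by
        rw [ENNReal.ofReal_natCast]
        rfl
      rw [h5, ← ENNReal.ofReal_mul' hpos.le]
      apply ENNReal.ofReal_le_ofReal
      refine h3.trans ?_
      exact_mod_cast h4
    calc ENNReal.ofReal D = ENNReal.ofReal ((D - ε) + ε) := by rw [sub_add_cancel]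
      _ ≤ ENNReal.ofReal (D - ε) + ENNReal.ofReal ε := ENNReal.ofReal_add_le
      _ = ENNReal.ofReal (D - ε) + ε := by rw [ENNReal.ofReal_coe_nnreal]
      _ ≤ _ := by gcongr

theorem assembly (h1 : S_B1) (h2 : S_B2) (h3 : S_B3) (h4 : S_B4) (h5 : S_B5) (h6 : S_B6)
    (h7 : S_B7) (h8 : S_B8) (p q : ℕ) (μ : Measure ℝ) [IsProbabilityMeasure μ] (hq : 2 ≤ q)
    (hd : q ∣ p) (hqp : q < p) (hμ : IsSelfSim p q μ) (d : ℝ) (hd0 : 0 ≤ d)
    (hdM : d ≤ (2 * ((p - 1 : ℝ) / (q - 1))) ^ (Real.log q / Real.log p)) :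
    ∃ Λ : Set ℝ, IsSpectrum μ Λ ∧
      upperDensity (Real.log q / Real.log p) Λ = ENNReal.ofReal d := by
  have par : Par p q := by
    refine ⟨hq, ?_, hd⟩
    obtain ⟨r, rfl⟩ := hd
    have : 1 < r := by
      by_contra hr
      have : r ≤ 1 := by omega
      have := Nat.mul_le_mul_left q this
      omega
    have := Nat.mul_le_mul_left q this
    linarith
  obtain ⟨A, M, hA, hsp⟩ := h1 p q μ par hμ
  set s := Real.log q / Real.log p with hs
  set C1 : ℝ := (p - 1 : ℝ) / (q - 1) with hC1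
  have hqR : (2 : ℝ) ≤ q := by exact_mod_cast hq
  have hpR : (2 : ℝ) * q ≤ p := by exact_mod_cast par.pq
  have hC1p : 0 < C1 := div_pos (by linarith) (by linarith)
  have hMp : 0 < (2 * C1) ^ s := Real.rpow_pos_of_pos (by positivity) s
  obtain ⟨g, hg, hsum⟩ := digits_exist hq (γ := d / (2 * C1) ^ s) (div_nonneg hd0 hMp.le)
    ((div_le_one hMp).2 hdM)
  have hmix := h2 p q A M hA (fun n j => if j ≤ g n then Lam0 p q else LamZ p q)
    (fun n j => by
      by_cases h : j ≤ g n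
      · rw [if_pos h]; exact (h3 p q A M hA).1
      · rw [if_neg h]; exact (h4 p q A M hA).1)
    (fun n j => by
      by_cases h : j ≤ g n
      · rw [if_pos h]; exact (h3 p q A M hA).2
      · rw [if_neg h]; exact (h4 p q A M hA).2)
  refine ⟨(fun z : ℤ => (z : ℝ)) '' MixG p q g, hsp _ hmix.1 hmix.2, ?_⟩
  have hγ : d / (2 * C1) ^ s * (2 * C1) ^ s = d := div_mul_cancel₀ _ hMp.ne'
  have hlp : 0 < Real.log p := Real.log_pos (by linarith)
  have hps : ∀ k : ℕ, ((p : ℝ) ^ k) ^ s = (q : ℝ) ^ k := by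
    intro k
    rw [← Real.rpow_natCast, ← Real.rpow_mul (by linarith), mul_comm (k : ℝ) s,
      Real.rpow_mul (by linarith), Real.rpow_natCast]
    congr 1
    rw [hs, Real.rpow_def_of_pos (by linarith), mul_div_cancel₀ _ hlp.ne',
      Real.exp_log (by linarith)]
  apply density_eq hd0
  · intro ε hε
    obtain ⟨h0, hh⟩ := h7 h5 h6 p q par g _ hg hsum ε hε
    refine ⟨h0, fun h T a b c => ?_⟩
    have := hh h T a b c
    rwa [hγ] at this
  · intro ε hε
    refine ⟨fun k => (p : ℝ) ^ k / (2 * C1), fun k => ((p : ℝ) ^ k - 1) / (2 * C1), ?_, ?_⟩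
    · exact (tendsto_pow_atTop_atTop_of_one_lt (by linarith)).atTop_div_const (by positivity)
    · have ht := hsum.tendsto_sum_nat
      have ht2 := ht.mul_const ((2 * C1) ^ s)
      rw [hγ] at ht2
      filter_upwards [ht2.eventually_const_lt (show d - ε < d by linarith)] with k hk
      obtain ⟨T, hT1, hT2, hT3⟩ := h8 p q par g hg k
      refine ⟨T, hT1, ?_, ?_⟩
      · intro x hx
        obtain ⟨hx0, hx1⟩ := hT2 x hx
        have hx0' : (0 : ℝ) ≤ x := by exact_mod_cast hx0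
        have e1 : ((p : ℝ) ^ k - 1) / (2 * C1) - (p : ℝ) ^ k / (2 * C1) = - (1 / (2 * C1)) := by
          ring
        have e2 : ((p : ℝ) ^ k - 1) / (2 * C1) + (p : ℝ) ^ k / (2 * C1) =
            ((p : ℝ) ^ k - 1) / C1 + 1 / (2 * C1) := by
          field_simp
          ring
        have e3 : 0 < 1 / (2 * C1) := by positivity
        rw [e1, e2]
        have e4 : (x : ℝ) ≤ ((p : ℝ) ^ k - 1) / C1 := by rwa [le_div_iff₀ hC1p]
        constructor <;> linarith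
      · rw [Real.div_rpow (by positivity) (by positivity), hps]
        refine le_trans ?_ hT3
        rw [mul_div_assoc', div_le_iff₀ hMp]
        have : (0 : ℝ) < (q : ℝ) ^ k := by positivity
        nlinarith

end Pool.Agent.R97.BD
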