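import Mathlib

/-! MP_5269d5_an: intermediate Beurling densities of spectra (paper proof by helper249).
Definitions and exact statements of the parts. -/

open Finset Filter Topology MeasureTheory
open scoped ENNReal

namespace Pool.Agent.R97.BD

/-! ### the notions of the problem -/

/-- `mu` is the self-similar measure `mu_{p,q}`: `mu = (1/q) sum_{j < q} mu o f_j^{-1}` with
`f_j x = (x + (p/q) j) / p`. -/
def IsSelfSim (p q : ℕ) (μ : Measure ℝ) : Prop :=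
  μ = ∑ j ∈ Finset.range q, (q : ℝ≥0∞)⁻¹ • μ.map (fun x : ℝ => (x + (p : ℝ) / q * j) / p)

/-- `Λ` is a spectrum of `μ`: it is countable and the exponentials `exp (2 pi i l x)`, `l ∈ Λ`,
form an orthonormal (Hilbert) basis of `L^2(μ)`. -/
def IsSpectrum (μ : Measure ℝ) [IsFiniteMeasure μ] (Λ : Set ℝ) : Prop :=
  Λ.Countable ∧ ∃ b : HilbertBasis Λ ℂ (Lp ℂ 2 μ), ∀ l : Λ,
    (b l : ℝ → ℂ) =ᵐ[μ] fun x => Complex.exp (2 * Real.pi * Complex.I * (l : ℝ) * x)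

/-- upper `r`-Beurling density: `limsup_{h → ∞} sup_x #(Λ ∩ (x - h, x + h)) / h^r`. -/
noncomputable def upperDensity (r : ℝ) (Λ : Set ℝ) : ℝ≥0∞ :=
  limsup (fun h : ℝ => (⨆ x : ℝ, (((Λ ∩ Set.Ioo (x - h) (x + h)).encard : ℕ∞) : ℝ≥0∞)) /
    ENNReal.ofReal (h ^ r)) atTop

/-! ### combinatorial notions -/

/-- base `q` digits read in base `p` -/
def phi (p q W : ℕ) : ℕ := Nat.ofDigits p (Nat.digits q W)

/-- integers `p^k u` with `q ∤ u`: zeros of the Fourier transform -/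
def Zn (p q : ℕ) (z : ℤ) : Prop := ∃ (k : ℕ) (u : ℤ), ¬ (q : ℤ) ∣ u ∧ z = (p : ℤ) ^ k * u

/-- all differences of distinct elements are Z-numbers -/
def Good (p q : ℕ) (Λ : Set ℤ) : Prop := ∀ x ∈ Λ, ∀ y ∈ Λ, x ≠ y → Zn p q (x - y)

/-- the sums of `M (ξ + x)` over finite subsets of `Λ` come arbitrarily close to `1`. -/
def Full (M : ℝ → ℝ) (Λ : Set ℤ) : Prop := ∀ (ξ δ : ℝ), 0 < δ →
  ∃ S : Finset ℤ, (↑S : Set ℤ) ⊆ Λ ∧ 1 - δ ≤ ∑ x ∈ S, M (ξ + x)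

/-- the parameters -/
structure Par (p q : ℕ) : Prop where
  q2 : 2 ≤ q
  pq : 2 * q ≤ p
  dvd : q ∣ p

/-- properties of `A = |mask|^2` and `M = |Fourier transform|^2` -/
structure Ax (p q : ℕ) (A M : ℝ → ℝ) : Prop where
  par : Par p q
  A_nonneg : ∀ t, 0 ≤ A t
  A_zero : A 0 = 1
  A_per : ∀ t, A (t + q) = A t
  A_sum : ∀ t, ∑ j ∈ Finset.range q, A (t + j) = 1
  M_nonneg : ∀ t, 0 ≤ M t
  M_le_one : ∀ t, M t ≤ 1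
  M_zero : M 0 = 1
  M_cont : Continuous M
  M_rec : ∀ t, M t = A t * M (t / p)
  M_low : ∃ c : ℝ, 0 < c ∧ ∀ t, |t| ≤ 3 / 4 → c ≤ M t

/-- the standard spectrum -/
def Lam0 (p q : ℕ) : Set ℤ := {z | ∃ W : ℕ, z = (phi p q W : ℤ)}

/-- partial block lengths of the sparse spectrum -/
def LL (q : ℕ) : ℕ → ℕ
  | 0 => 0
  | k + 1 => LL q k + (q ^ LL q k + 5)

/-- block contents -/
def gz (p q k W : ℕ) : ℕ := if W = 0 then 0 else phi p q W + q * p ^ (q ^ LL q k + 5 + W)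

/-- finite stages of the sparse spectrum -/
def SS (p q : ℕ) : ℕ → Finset ℕ
  | 0 => {0}
  | k + 1 => ((SS p q k) ×ˢ Finset.range (q ^ (q ^ LL q k + 5))).image
      (fun x => x.1 + p ^ LL q k * gz p q k x.2)

/-- the sparse spectrum -/
def LamZ (p q : ℕ) : Set ℤ := {z | ∃ k, ∃ x ∈ SS p q k, z = (x : ℤ)}

/-- mixtures -/
def Mix (p q : ℕ) (Γ : ℕ → ℕ → Set ℤ) : Set ℤ :=
  {z | z = 0 ∨ ∃ n j : ℕ, 1 ≤ j ∧ j < q ∧ ∃ γ ∈ Γ n j, z = (p : ℤ) ^ n * (j + p * γ)}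

/-! ### the parts -/

/-- B1 (Fourier analysis) -/
def S_B1 : Prop := ∀ (p q : ℕ) (μ : Measure ℝ) [IsProbabilityMeasure μ], Par p q →
  IsSelfSim p q μ → ∃ A M : ℝ → ℝ, Ax p q A M ∧
    ∀ Λ : Set ℤ, Good p q Λ → Full M Λ → IsSpectrum μ ((fun z : ℤ => (z : ℝ)) '' Λ)

/-- B2 (mixtures) -/
def S_B2 : Prop := ∀ (p q : ℕ) (A M : ℝ → ℝ), Ax p q A M → ∀ Γ : ℕ → ℕ → Set ℤ,
  (∀ n j, Good p q (Γ n j)) → (∀ n j, Full M (Γ n j)) →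
    Good p q (Mix p q Γ) ∧ Full M (Mix p q Γ)

/-- B3 (the standard spectrum) -/
def S_B3 : Prop := ∀ (p q : ℕ) (A M : ℝ → ℝ), Ax p q A M →
  Good p q (Lam0 p q) ∧ Full M (Lam0 p q)

/-- B4 (the sparse spectrum) -/
def S_B4 : Prop := ∀ (p q : ℕ) (A M : ℝ → ℝ), Ax p q A M →
  Good p q (LamZ p q) ∧ Full M (LamZ p q)

/-- B5 (the sparse spectrum is sparse) -/
def S_B5 : Prop := ∀ (p q : ℕ), Par p q → ∀ ε : ℝ, 0 < ε → ∃ C : ℝ, ∀ (n : ℕ) (T : Finset ℤ),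
  (↑T : Set ℤ) ⊆ LamZ p q → (∀ x ∈ T, ∀ y ∈ T, x - y < (p : ℤ) ^ n) →
    (T.card : ℝ) ≤ ε * (q : ℝ) ^ n + C

/-- B6 (counting in the standard spectrum) -/
def S_B6 : Prop := ∀ (p q : ℕ), Par p q → ∀ (h : ℝ) (T : Finset ℤ), 0 < h →
  (↑T : Set ℤ) ⊆ Lam0 p q → (∀ x ∈ T, ∀ y ∈ T, ((x - y : ℤ) : ℝ) < 2 * h) →
    (T.card : ℝ) ≤ (2 * h * ((p - 1 : ℝ) / (q - 1)) + 1) ^ (Real.log q / Real.log p)

/-- the mixture with digit sequence `g` -/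
def MixG (p q : ℕ) (g : ℕ → ℕ) : Set ℤ :=
  Mix p q (fun n j => if j ≤ g n then Lam0 p q else LamZ p q)

/-- B7 (upper density of the mixture) -/
def S_B7 : Prop := S_B5 → S_B6 → ∀ (p q : ℕ), Par p q → ∀ (g : ℕ → ℕ) (γ : ℝ),
  (∀ n, g n ≤ q - 1) → HasSum (fun n => (g n : ℝ) / (q : ℝ) ^ (n + 1)) γ →
    ∀ ε : ℝ, 0 < ε → ∃ h0 : ℝ, ∀ (h : ℝ) (T : Finset ℤ), h0 ≤ h →
      (↑T : Set ℤ) ⊆ MixG p q g → (∀ x ∈ T, ∀ y ∈ T, ((x - y : ℤ) : ℝ) < 2 * h) →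
      (T.card : ℝ) ≤ (γ * (2 * ((p - 1 : ℝ) / (q - 1))) ^ (Real.log q / Real.log p) + ε) *
        h ^ (Real.log q / Real.log p)

/-- B8 (lower bound for the mixture) -/
def S_B8 : Prop := ∀ (p q : ℕ), Par p q → ∀ (g : ℕ → ℕ), (∀ n, g n ≤ q - 1) → ∀ k : ℕ,
  ∃ T : Finset ℤ, (↑T : Set ℤ) ⊆ MixG p q g ∧
    (∀ x ∈ T, 0 ≤ x ∧ ((x : ℤ) : ℝ) * ((p - 1 : ℝ) / (q - 1)) ≤ (p : ℝ) ^ k - 1) ∧
    (q : ℝ) ^ k * ∑ m ∈ Finset.range k, (g m : ℝ) / (q : ℝ) ^ (m + 1) ≤ T.card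

end Pool.Agent.R97.BD
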