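import Mathlib
import Pool.Agent.R97.BD.Defs

/-! Part B1: Fourier analysis of the self-similar measures. -/

set_option autoImplicit false

open MeasureTheory Set Filter Topology
open scoped ENNReal InnerProductSpace

namespace Pool.Agent.R97.BD.P1

lemma norm_cexp' (a x : ℝ) : ‖Complex.exp (2 * Real.pi * Complex.I * a * x)‖ = 1 := by
  have : (2 * Real.pi * Complex.I * a * x : ℂ) = ((2 * Real.pi * (a * x) : ℝ) : ℂ) * Complex.I := by
    push_cast; ring
  rw [this, Complex.norm_exp_ofReal_mul_I]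

/-- the Fourier transform of `μ` -/
noncomputable def F (μ : Measure ℝ) (ξ : ℝ) : ℂ :=
  ∫ x : ℝ, Complex.exp (2 * Real.pi * Complex.I * ξ * x) ∂μ

/-- its squared modulus -/
noncomputable def M (μ : Measure ℝ) (ξ : ℝ) : ℝ := ‖F μ ξ‖ ^ 2

/-- the mask -/
noncomputable def mask (q : ℕ) (t : ℝ) : ℂ :=
  (q : ℂ)⁻¹ * ∑ j ∈ Finset.range q, Complex.exp (2 * Real.pi * Complex.I * ((t / q : ℝ) : ℂ)) ^ j

section Mask

variable {q : ℕ}

lemma geom_zero {z : ℂ} (h1 : z ≠ 1) (hq : z ^ q = 1) : ∑ j ∈ Finset.range q, z ^ j = 0 := by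
  have h := geom_sum_mul z q
  rw [hq, sub_self] at h
  rcases mul_eq_zero.1 h with h | h
  · exact h
  · exact absurd (sub_eq_zero.1 h) h1

lemma exp_eq_one (u : ℝ) (h : Complex.exp (2 * Real.pi * Complex.I * (u : ℂ)) = 1) :
    ∃ n : ℤ, u = n := by
  obtain ⟨n, hn⟩ := Complex.exp_eq_one_iff.1 h
  refine ⟨n, ?_⟩
  have h1 : (2 * Real.pi * Complex.I : ℂ) ≠ 0 := by
    simp [Real.pi_ne_zero, Complex.I_ne_zero]
  have h2 : (2 * Real.pi * Complex.I : ℂ) * u = (2 * Real.pi * Complex.I) * ((n : ℝ) : ℂ) := by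
    rw [hn]
    push_cast
    ring
  have h3 := mul_left_cancel₀ h1 h2
  exact_mod_cast h3

lemma exp_int (n : ℤ) : Complex.exp (2 * Real.pi * Complex.I * ((n : ℝ) : ℂ)) = 1 := by
  have : (2 * Real.pi * Complex.I * ((n : ℝ) : ℂ)) = (n : ℂ) * (2 * Real.pi * Complex.I) := by
    push_cast
    ring
  rw [this, Complex.exp_int_mul_two_pi_mul_I]

lemma pow_q (hq : 0 < q) (t : ℝ) : Complex.exp (2 * Real.pi * Complex.I * ((t / q : ℝ) : ℂ)) ^ q =
    Complex.exp (2 * Real.pi * Complex.I * (t : ℂ)) := by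
  rw [← Complex.exp_nat_mul]
  congr 1
  push_cast
  have : (q : ℂ) ≠ 0 := by exact_mod_cast hq.ne'
  field_simp

lemma mask_zero (hq : 0 < q) : mask q 0 = 1 := by
  unfold mask
  have : (q : ℂ) ≠ 0 := by exact_mod_cast hq.ne'
  simp [this]

lemma mask_int (hq : 0 < q) {u : ℤ} (hu : ¬ (q : ℤ) ∣ u) : mask q u = 0 := by
  unfold mask
  rw [geom_zero, mul_zero]
  · intro h
    obtain ⟨n, hn⟩ := exp_eq_one _ h
    apply hu
    refine ⟨n, ?_⟩
    have hq' : (q : ℝ) ≠ 0 := by exact_mod_cast hq.ne'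
    rw [div_eq_iff hq'] at hn
    have h2 : (u : ℝ) = ((q : ℤ) : ℝ) * n := by rw [hn]; push_cast; ring
    exact_mod_cast h2
  · rw [pow_q hq, exp_int]

lemma mask_ne_zero (hq : 0 < q) {u : ℝ} (hu : |u| < 1) : mask q u ≠ 0 := by
  intro h
  unfold mask at h
  have hqC : (q : ℂ)⁻¹ ≠ 0 := by
    have : (q : ℂ) ≠ 0 := by exact_mod_cast hq.ne'
    exact inv_ne_zero this
  have h1 := (mul_eq_zero.1 h).resolve_left hqC
  have h2 := geom_sum_mul (Complex.exp (2 * Real.pi * Complex.I * ((u / q : ℝ) : ℂ))) q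
  rw [h1, zero_mul, pow_q hq] at h2
  obtain ⟨n, hn⟩ := exp_eq_one u (sub_eq_zero.1 h2.symm)
  have hn0 : n = 0 := by
    rw [hn] at hu
    have h3 : |n| < 1 := by exact_mod_cast hu
    have := abs_lt.1 h3
    omega
  rw [hn, hn0] at h
  have h4 := mask_zero hq
  unfold mask at h4
  rw [Int.cast_zero] at h
  rw [h4] at h
  exact one_ne_zero h

lemma mask_per (hq : 0 < q) (t : ℝ) : mask q (t + q) = mask q t := by
  unfold mask
  congr 2
  funext j
  congr 1
  have hq' : (q : ℝ) ≠ 0 := by exact_mod_cast hq.ne'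
  have h1 : (t + q) / q = t / q + ((1 : ℤ) : ℝ) := by
    push_cast
    field_simp
  rw [h1, Complex.ofReal_add, mul_add, Complex.exp_add, exp_int, mul_one]

lemma mask_sum (hq : 0 < q) (t : ℝ) : ∑ k ∈ Finset.range q, ‖mask q (t + k)‖ ^ 2 = 1 := by
  have hqC : (q : ℂ) ≠ 0 := by exact_mod_cast hq.ne'
  have hq' : (q : ℝ) ≠ 0 := by exact_mod_cast hq.ne'
  set ω : ℂ := Complex.exp (2 * Real.pi * Complex.I / q) with hω
  have hprim : IsPrimitiveRoot ω q := Complex.isPrimitiveRoot_exp q hq.ne'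
  have hω0 : ω ≠ 0 := Complex.exp_ne_zero _
  set a : ℂ := Complex.exp (2 * Real.pi * Complex.I * ((t / q : ℝ) : ℂ)) with ha
  have ha1 : ‖a‖ = 1 := by
    have := norm_cexp' (t / q) 1
    rw [Complex.ofReal_one, mul_one] at this
    exact this
  have hω1 : ‖ω‖ = 1 := hprim.norm'_eq_one hq.ne'
  have haa : a * (starRingEnd ℂ) a = 1 := by
    rw [Complex.mul_conj, Complex.normSq_eq_norm_sq, ha1]; simp
  have hωω : ω * (starRingEnd ℂ) ω = 1 := by
    rw [Complex.mul_conj, Complex.normSq_eq_norm_sq, hω1]; simp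
  have hconjω : (starRingEnd ℂ) ω = ω⁻¹ := eq_inv_of_mul_eq_one_right hωω
  have hconja : (starRingEnd ℂ) a = a⁻¹ := eq_inv_of_mul_eq_one_right haa
  have hexp : ∀ k : ℕ, Complex.exp (2 * Real.pi * Complex.I * (((t + k) / q : ℝ) : ℂ)) =
      a * ω ^ k := by
    intro k
    rw [ha, hω, ← Complex.exp_nat_mul, ← Complex.exp_add]
    congr 1
    push_cast
    ring
  have hC : ∑ k ∈ Finset.range q, ((‖mask q (t + k)‖ ^ 2 : ℝ) : ℂ) = 1 := by
    have h1 : ∀ k ∈ Finset.range q, ((‖mask q (t + k)‖ ^ 2 : ℝ) : ℂ) =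
        ((q : ℂ)⁻¹) ^ 2 * ∑ i ∈ Finset.range q, ∑ j ∈ Finset.range q,
          (a ^ i * (a⁻¹) ^ j) * (ω ^ i * (ω⁻¹) ^ j) ^ k := by
      intro k _
      have e1 : ((‖mask q (t + k)‖ ^ 2 : ℝ) : ℂ) =
          mask q (t + k) * (starRingEnd ℂ) (mask q (t + k)) := by
        rw [Complex.mul_conj, Complex.normSq_eq_norm_sq]
      rw [e1]
      unfold mask
      rw [hexp k, map_mul, map_sum, map_inv₀, map_natCast]
      have e2 : (∑ x ∈ Finset.range q, (starRingEnd ℂ) ((a * ω ^ k) ^ x)) =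
          ∑ j ∈ Finset.range q, (a⁻¹) ^ j * ((ω⁻¹) ^ j) ^ k := by
        refine Finset.sum_congr rfl fun j _ => ?_
        rw [map_pow, map_mul, map_pow, hconja, hconjω, mul_pow, ← pow_mul, ← pow_mul, mul_comm k j]
      rw [e2]
      have e3 : (∑ j ∈ Finset.range q, (a * ω ^ k) ^ j) =
          ∑ i ∈ Finset.range q, a ^ i * (ω ^ i) ^ k := by
        refine Finset.sum_congr rfl fun j _ => ?_
        rw [mul_pow, ← pow_mul, ← pow_mul, mul_comm k j]
      rw [e3]
      have e4 : (q : ℂ)⁻¹ * (∑ i ∈ Finset.range q, a ^ i * (ω ^ i) ^ k) *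
          ((q : ℂ)⁻¹ * ∑ j ∈ Finset.range q, (a⁻¹) ^ j * ((ω⁻¹) ^ j) ^ k) =
          ((q : ℂ)⁻¹) ^ 2 * ((∑ i ∈ Finset.range q, a ^ i * (ω ^ i) ^ k) *
            ∑ j ∈ Finset.range q, (a⁻¹) ^ j * ((ω⁻¹) ^ j) ^ k) := by ring
      rw [e4, Finset.sum_mul_sum]
      congr 1
      refine Finset.sum_congr rfl fun i _ => Finset.sum_congr rfl fun j _ => ?_
      rw [mul_pow]
      ring
    rw [Finset.sum_congr rfl h1, ← Finset.mul_sum, Finset.sum_comm]
    have h2 : ∀ i ∈ Finset.range q, ∑ k ∈ Finset.range q, ∑ j ∈ Finset.range q,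
        (a ^ i * (a⁻¹) ^ j) * (ω ^ i * (ω⁻¹) ^ j) ^ k = (q : ℂ) := by
      intro i hi
      rw [Finset.sum_comm]
      rw [Finset.sum_eq_single i]
      · have e1 : ω ^ i * (ω⁻¹) ^ i = 1 := by
          rw [← mul_pow, mul_inv_cancel₀ hω0, one_pow]
        have ha0 : a ≠ 0 := Complex.exp_ne_zero _
        have e2 : a ^ i * (a⁻¹) ^ i = 1 := by
          rw [← mul_pow, mul_inv_cancel₀ ha0, one_pow]
        simp only [e1, e2, one_pow, mul_one, Finset.sum_const, Finset.card_range, nsmul_eq_mul]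
      · intro j hj hji
        rw [← Finset.mul_sum, geom_zero, mul_zero]
        · intro h
          apply hji
          have h3 : ω ^ i = ω ^ j := by
            rw [inv_pow] at h
            have := eq_inv_of_mul_eq_one_left h
            rwa [inv_inv] at this
          exact (hprim.pow_inj (Finset.mem_range.1 hi) (Finset.mem_range.1 hj) h3).symm
        · rw [mul_pow, ← pow_mul, ← pow_mul, mul_comm i, mul_comm j, pow_mul, pow_mul, inv_pow,
            hprim.pow_eq_one]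
          simp
      · intro h
        exact absurd hi h
    rw [Finset.sum_congr rfl h2, Finset.sum_const, Finset.card_range, nsmul_eq_mul]
    field_simp
  have := congrArg Complex.re hC
  rw [← Complex.ofReal_sum, Complex.ofReal_re, Complex.one_re] at this
  exact this

end Mask

section Four

variable {p q : ℕ} {μ : Measure ℝ} [IsProbabilityMeasure μ]

lemma F_eq_charFun (ξ : ℝ) : F μ ξ = charFun μ (2 * Real.pi * ξ) := by
  unfold F
  rw [charFun_apply_real]
  congr 1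
  funext x
  congr 1
  push_cast
  ring

lemma continuous_F : Continuous (F μ) := by
  have h : F μ = fun ξ : ℝ => charFun μ (2 * Real.pi * ξ) := funext F_eq_charFun
  rw [h]
  exact continuous_charFun.comp (by fun_prop)

lemma F_zero : F μ 0 = 1 := by
  rw [F_eq_charFun, mul_zero, charFun_zero]
  simp

lemma norm_F_le (ξ : ℝ) : ‖F μ ξ‖ ≤ 1 := by
  rw [F_eq_charFun]
  exact norm_charFun_le_one _

lemma F_neg (ξ : ℝ) : F μ (-ξ) = (starRingEnd ℂ) (F μ ξ) := by
  rw [F_eq_charFun, F_eq_charFun, mul_neg, charFun_neg]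

lemma M_neg (ξ : ℝ) : M μ (-ξ) = M μ ξ := by
  unfold M
  rw [F_neg, Complex.norm_conj]

lemma F_rec (hq : 0 < q) (hp : 0 < p) (hμ : IsSelfSim p q μ) (ξ : ℝ) :
    F μ ξ = mask q ξ * F μ (ξ / p) := by
  have hq' : (q : ℝ) ≠ 0 := by exact_mod_cast hq.ne'
  have hp' : (p : ℝ) ≠ 0 := by exact_mod_cast hp.ne'
  have hint : ∀ (f : ℝ → ℂ) (_ : Continuous f) (_ : ∀ x, ‖f x‖ ≤ 1) (ν : Measure ℝ)
      (_ : IsFiniteMeasure ν), Integrable f ν := by
    intro f hf hb ν _
    exact Integrable.mono' (g := fun _ => 1) (integrable_const 1) hf.aestronglyMeasurable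
      (Filter.Eventually.of_forall hb)
  have hc : Continuous fun x : ℝ => Complex.exp (2 * Real.pi * Complex.I * ξ * x) := by fun_prop
  have h1 : F μ ξ = ∫ x : ℝ, Complex.exp (2 * Real.pi * Complex.I * ξ * x)
      ∂(∑ j ∈ Finset.range q, (q : ℝ≥0∞)⁻¹ • μ.map (fun x : ℝ => (x + (p : ℝ) / q * j) / p)) := by
    have h0 : μ = ∑ j ∈ Finset.range q,
      (q : ℝ≥0∞)⁻¹ • μ.map (fun x : ℝ => (x + (p : ℝ) / q * j) / p) := hμ
    rw [← h0]
    rfl
  have hqe : (q : ℝ≥0∞)⁻¹ ≠ ⊤ := by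
    rw [ENNReal.inv_ne_top]
    exact_mod_cast hq.ne'
  rw [h1, integral_finsetSum_measure]
  · have h2 : ∀ j ∈ Finset.range q, ∫ x : ℝ, Complex.exp (2 * Real.pi * Complex.I * ξ * x)
        ∂((q : ℝ≥0∞)⁻¹ • μ.map (fun x : ℝ => (x + (p : ℝ) / q * j) / p)) =
        (q : ℂ)⁻¹ * Complex.exp (2 * Real.pi * Complex.I * ((ξ / q : ℝ) : ℂ)) ^ j *
          F μ (ξ / p) := by
      intro j _
      rw [integral_smul_measure, integral_map (by fun_prop) hc.aestronglyMeasurable]
      have e1 : ∀ x : ℝ, Complex.exp (2 * Real.pi * Complex.I * ξ *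
          (((x + (p : ℝ) / q * j) / p : ℝ) : ℂ)) =
          Complex.exp (2 * Real.pi * Complex.I * ((ξ / q : ℝ) : ℂ)) ^ j *
            Complex.exp (2 * Real.pi * Complex.I * ((ξ / p : ℝ) : ℂ) * x) := by
        intro x
        rw [← Complex.exp_nat_mul, ← Complex.exp_add]
        congr 1
        push_cast
        have hqC : (q : ℂ) ≠ 0 := by exact_mod_cast hq.ne'
        have hpC : (p : ℂ) ≠ 0 := by exact_mod_cast hp.ne'
        field_simp
        ring
      simp_rw [e1]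
      rw [integral_const_mul]
      unfold F
      rw [ENNReal.toReal_inv, ENNReal.toReal_natCast, Complex.real_smul]
      push_cast
      ring
    rw [Finset.sum_congr rfl h2, ← Finset.sum_mul]
    unfold mask
    rw [Finset.mul_sum]
  · intro j _
    have p1 : IsProbabilityMeasure (μ.map (fun x : ℝ => (x + (p : ℝ) / q * j) / p)) :=
      Measure.isProbabilityMeasure_map (by fun_prop)
    have := hint _ hc (fun x => by rw [norm_cexp'])
      (μ.map (fun x : ℝ => (x + (p : ℝ) / q * j) / p)) inferInstance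
    exact this.smul_measure hqe

lemma tendsto_F (hp : 2 ≤ p) (ξ : ℝ) : Tendsto (fun n : ℕ => F μ (ξ / p ^ n)) atTop (𝓝 1) := by
  have h : Tendsto (fun n : ℕ => ξ / (p : ℝ) ^ n) atTop (𝓝 0) := by
    refine tendsto_const_nhds.div_atTop (tendsto_pow_atTop_atTop_of_one_lt ?_)
    exact_mod_cast (by omega : 1 < p)
  have h2 := (continuous_F (μ := μ)).tendsto 0
  rw [F_zero] at h2
  exact h2.comp h

lemma F_ne_zero_aux (hq : 0 < q) (hp : 2 ≤ p) (hμ : IsSelfSim p q μ) (n : ℕ) : ∀ u : ℝ, |u| < 1 →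
    F μ (u / p ^ n) ≠ 0 → F μ u ≠ 0 := by
  have hp' : (1 : ℝ) ≤ p := by exact_mod_cast (by omega : 1 ≤ p)
  induction n with
  | zero => intro u _ h; simpa using h
  | succ n ih =>
    intro u hu h
    rw [F_rec hq (by omega) hμ]
    refine mul_ne_zero (mask_ne_zero hq hu) (ih (u / p) ?_ ?_)
    · rw [abs_div, abs_of_pos (by linarith : (0 : ℝ) < p)]
      exact (div_le_self (abs_nonneg _) hp').trans_lt hu
    · rw [div_div, ← pow_succ']
      exact h

lemma F_ne_zero (hq : 0 < q) (hp : 2 ≤ p) (hμ : IsSelfSim p q μ) {u : ℝ} (hu : |u| < 1) :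
    F μ u ≠ 0 := by
  have h := (tendsto_F hp u (μ := μ)).eventually_ne (one_ne_zero)
  obtain ⟨n, hn⟩ := h.exists
  exact F_ne_zero_aux hq hp hμ n u hu hn

lemma F_Zn (hq : 0 < q) (hp : 2 ≤ p) (hμ : IsSelfSim p q μ) {z : ℤ} (hz : Zn p q z) :
    F μ z = 0 := by
  obtain ⟨k, u, hu, rfl⟩ := hz
  induction k with
  | zero =>
    rw [pow_zero, one_mul, F_rec hq (by omega) hμ, mask_int hq hu, zero_mul]
  | succ k ih =>
    rw [F_rec hq (by omega) hμ]
    have hp' : (p : ℝ) ≠ 0 := by exact_mod_cast (by omega : p ≠ 0)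
    have : (((p : ℤ) ^ (k + 1) * u : ℤ) : ℝ) / p = (((p : ℤ) ^ k * u : ℤ) : ℝ) := by
      push_cast
      rw [pow_succ]
      field_simp
    rw [this, ih, mul_zero]

end Four

section Hilb

/-- abstract completeness criterion -/
lemma orth_eq_bot {H ι : Type*} [NormedAddCommGroup H] [InnerProductSpace ℂ H]
    {v : ι → H} (hv : Orthonormal ℂ v) (S : Set H)
    (htot : ∀ y : H, (∀ x ∈ S, ⟪y, x⟫_ℂ = 0) → y = 0)
    (hS : ∀ x ∈ S, ENNReal.ofReal (‖x‖ ^ 2) ≤ ∑' i, ENNReal.ofReal (‖⟪v i, x⟫_ℂ‖ ^ 2)) :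
    (Submodule.span ℂ (range v))ᗮ = ⊥ := by
  rw [Submodule.eq_bot_iff]
  intro y hy
  by_contra hne
  apply hne
  have hy' : ∀ i, ⟪v i, y⟫_ℂ = 0 := fun i =>
    (Submodule.mem_orthogonal _ _).mp hy _ (Submodule.subset_span ⟨i, rfl⟩)
  refine htot y fun x hx => ?_
  by_contra hxy
  have hyn : 0 < ‖y‖ := norm_pos_iff.mpr hne
  -- component orthogonal to y
  set c : ℂ := ⟪y, x⟫_ℂ / (‖y‖ ^ 2 : ℝ) with hc
  set z : H := x - c • y with hz
  have hyz : ⟪y, z⟫_ℂ = 0 := by
    rw [hz, inner_sub_right, inner_smul_right, hc, inner_self_eq_norm_sq_to_K]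
    have : ((‖y‖ ^ 2 : ℝ) : ℂ) ≠ 0 := by
      exact_mod_cast (by positivity : (‖y‖ ^ 2 : ℝ) ≠ 0)
    have e : ((‖y‖ : ℂ)) ^ 2 = ((‖y‖ ^ 2 : ℝ) : ℂ) := by push_cast; rfl
    simp only [Complex.coe_algebraMap]
    rw [e, div_mul_cancel₀ _ this, sub_self]
  have hvz : ∀ i, ⟪v i, z⟫_ℂ = ⟪v i, x⟫_ℂ := by
    intro i
    rw [hz, inner_sub_right, inner_smul_right, hy' i, mul_zero, sub_zero]
  have hpyth : ‖x‖ ^ 2 = ‖c • y‖ ^ 2 + ‖z‖ ^ 2 := by
    have : x = c • y + z := by rw [hz]; abel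
    rw [this, sq, sq, sq]
    refine norm_add_sq_eq_norm_sq_add_norm_sq_of_inner_eq_zero (𝕜 := ℂ) _ _ ?_
    rw [inner_smul_left, hyz, mul_zero]
  have hcpos : 0 < ‖c • y‖ ^ 2 := by
    have : c ≠ 0 := by
      rw [hc]
      apply div_ne_zero hxy
      exact_mod_cast (by positivity : (‖y‖ ^ 2 : ℝ) ≠ 0)
    have h2 : c • y ≠ 0 := smul_ne_zero this hne
    have := norm_pos_iff.mpr h2
    positivity
  -- Bessel
  have hsum := hv.inner_products_summable (x := z)
  have hbes := hv.tsum_inner_products_le z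
  have h1 : ∑' i, ENNReal.ofReal (‖⟪v i, x⟫_ℂ‖ ^ 2) = ENNReal.ofReal (∑' i, ‖⟪v i, z⟫_ℂ‖ ^ 2) := by
    rw [ENNReal.ofReal_tsum_of_nonneg (fun i => sq_nonneg _) hsum]
    simp_rw [hvz]
  have h2 := hS x hx
  rw [h1] at h2
  rw [ENNReal.ofReal_le_ofReal_iff (tsum_nonneg fun i => sq_nonneg _)] at h2
  linarith

/-- the exponential `e_l` -/
noncomputable def ee (l x : ℝ) : ℂ := Complex.exp (2 * Real.pi * Complex.I * l * x)

lemma norm_ee (l x : ℝ) : ‖ee l x‖ = 1 := norm_cexp' l x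

lemma continuous_ee (l : ℝ) : Continuous (ee l) := by
  unfold ee
  fun_prop

lemma memLp_ee (l : ℝ) (μ : Measure ℝ) [IsFiniteMeasure μ] : MemLp (ee l) 2 μ :=
  MemLp.of_bound (continuous_ee l).aestronglyMeasurable 1
    (Filter.Eventually.of_forall fun x => (norm_ee l x).le)

variable {μ : Measure ℝ} [IsProbabilityMeasure μ]

variable (μ) in
/-- the exponentials as elements of `L²(μ)` -/
noncomputable def ev (l : ℝ) : Lp ℂ 2 μ := (memLp_ee l μ).toLp _

lemma ev_ae (l : ℝ) : (ev μ l : ℝ → ℂ) =ᵐ[μ] ee l := MemLp.coeFn_toLp _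

lemma inner_ev (a b : ℝ) : ⟪ev μ a, ev μ b⟫_ℂ = F μ (b - a) := by
  rw [L2.inner_def]
  unfold F
  refine integral_congr_ae ?_
  filter_upwards [ev_ae a, ev_ae b] with x ha hb
  rw [ha, hb]
  simp only [RCLike.inner_apply]
  unfold ee
  rw [← Complex.exp_conj, ← Complex.exp_add]
  congr 1
  simp only [map_mul, Complex.conj_ofReal, Complex.conj_I, map_ofNat]
  push_cast
  ring

lemma norm_ev (a : ℝ) : ‖ev μ a‖ = 1 := by
  have h := inner_ev (μ := μ) a a
  rw [sub_self, F_zero, inner_self_eq_norm_sq_to_K] at h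
  have h2 : (‖ev μ a‖ : ℝ) ^ 2 = 1 := by
    have : ((‖ev μ a‖ : ℂ)) ^ 2 = 1 := h
    exact_mod_cast this
  have h3 := norm_nonneg (ev μ a)
  nlinarith

lemma real_zero {u : ℝ → ℝ} (hu : Integrable u μ)
    (h : ∀ ξ : ℝ, ∫ x : ℝ, Complex.exp (2 * Real.pi * Complex.I * ξ * x) * (u x : ℂ) ∂μ = 0) :
    u =ᵐ[μ] 0 := by
  have hf1 : IsFiniteMeasure (μ.withDensity fun x => ENNReal.ofReal (u x)) :=
    isFiniteMeasure_withDensity_ofReal hu.2
  have hf2 : IsFiniteMeasure (μ.withDensity fun x => ENNReal.ofReal (-u x)) :=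
    isFiniteMeasure_withDensity_ofReal hu.neg.2
  have hm1 : AEMeasurable (fun x => ENNReal.ofReal (u x)) μ := hu.1.aemeasurable.ennreal_ofReal
  have hm2 : AEMeasurable (fun x => ENNReal.ofReal (-u x)) μ :=
    hu.neg.1.aemeasurable.ennreal_ofReal
  have hint : ∀ (g : ℝ → ℝ) (_ : Integrable g μ) (ξ : ℝ), Integrable
      (fun x : ℝ => (g x) • Complex.exp (2 * Real.pi * Complex.I * ξ * x)) μ := by
    intro g hg ξ
    have hg2 : Integrable (fun x : ℝ => ((g x : ℝ) : ℂ) *
        Complex.exp (2 * Real.pi * Complex.I * ξ * x)) μ := by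
      refine hg.ofReal.mul_bdd (c := 1) ?_ ?_
      · exact (by fun_prop : Continuous _).aestronglyMeasurable
      · exact Filter.Eventually.of_forall fun x => by rw [norm_cexp']
    exact hg2.congr (Filter.Eventually.of_forall fun x => by simp only [Complex.real_smul])
  have hchar : charFun (μ.withDensity fun x => ENNReal.ofReal (u x)) =
      charFun (μ.withDensity fun x => ENNReal.ofReal (-u x)) := by
    funext t
    obtain ⟨ξ, rfl⟩ : ∃ ξ : ℝ, t = 2 * Real.pi * ξ :=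
      ⟨t / (2 * Real.pi), by have := Real.pi_pos; field_simp⟩
    have hexp : ∀ x : ℝ, Complex.exp (((2 * Real.pi * ξ : ℝ) : ℂ) * x * Complex.I) =
        Complex.exp (2 * Real.pi * Complex.I * ξ * x) := by
      intro x
      congr 1
      push_cast
      ring
    rw [charFun_apply_real, charFun_apply_real]
    simp_rw [hexp]
    rw [integral_withDensity_eq_integral_toReal_smul₀ hm1
      (Filter.Eventually.of_forall fun x => ENNReal.ofReal_lt_top),
      integral_withDensity_eq_integral_toReal_smul₀ hm2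
      (Filter.Eventually.of_forall fun x => ENNReal.ofReal_lt_top)]
    rw [← sub_eq_zero, ← integral_sub]
    · rw [← h ξ]
      refine integral_congr_ae (Filter.Eventually.of_forall fun x => ?_)
      simp only
      rw [← sub_smul, ENNReal.toReal_ofReal', ENNReal.toReal_ofReal', Complex.real_smul, mul_comm]
      congr 2
      rcases le_total (u x) 0 with h0 | h0
      · rw [max_eq_right h0, max_eq_left (by linarith)]; ring
      · rw [max_eq_left h0, max_eq_right (by linarith)]; ring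
    · refine (hint _ hu.pos_part ξ).congr (Filter.Eventually.of_forall fun x => ?_)
      simp only [ENNReal.toReal_ofReal']
    · refine (hint _ hu.neg_part ξ).congr (Filter.Eventually.of_forall fun x => ?_)
      simp only [ENNReal.toReal_ofReal']
  have heq := Measure.ext_of_charFun hchar
  have hfi : ∫⁻ x, ENNReal.ofReal (u x) ∂μ ≠ ⊤ := by
    have := hu.2
    exact ((lintegral_ofReal_le_lintegral_enorm u).trans_lt this).ne
  rw [withDensity_eq_iff hm1 hm2 hfi] at heq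
  filter_upwards [heq] with x hx
  simp only [Pi.zero_apply]
  rcases le_total (u x) 0 with h0 | h0
  · rw [ENNReal.ofReal_of_nonpos h0] at hx
    have := ENNReal.ofReal_eq_zero.mp hx.symm
    linarith
  · rw [ENNReal.ofReal_of_nonpos (by linarith : -u x ≤ 0)] at hx
    have := ENNReal.ofReal_eq_zero.mp hx
    linarith

/-- the exponentials are total -/
lemma total (y : Lp ℂ 2 μ) (h : ∀ ξ : ℝ, ⟪ev μ ξ, y⟫_ℂ = 0) : y = 0 := by
  have hy : Integrable y μ := (Lp.memLp y).integrable (by norm_num)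
  have hinn : ∀ ξ : ℝ, ∫ x : ℝ, Complex.exp (2 * Real.pi * Complex.I * ξ * x) * y x ∂μ = 0 := by
    intro ξ
    rw [← h (-ξ), L2.inner_def]
    refine integral_congr_ae ?_
    filter_upwards [ev_ae (-ξ)] with x hx
    rw [hx]
    simp only [RCLike.inner_apply]
    rw [mul_comm]
    congr 1
    unfold ee
    rw [← Complex.exp_conj]
    congr 1
    simp only [map_mul, Complex.conj_ofReal, Complex.conj_I, map_ofNat]
    push_cast
    ring
  have hcexp : ∀ ξ x : ℝ, (starRingEnd ℂ) (Complex.exp (2 * Real.pi * Complex.I * ξ * x)) =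
      Complex.exp (2 * Real.pi * Complex.I * ((-ξ : ℝ) : ℂ) * x) := by
    intro ξ x
    rw [← Complex.exp_conj]
    congr 1
    simp only [map_mul, Complex.conj_ofReal, Complex.conj_I, map_ofNat]
    push_cast
    ring
  have hconj : ∀ ξ : ℝ, ∫ x : ℝ, Complex.exp (2 * Real.pi * Complex.I * ξ * x) *
      (starRingEnd ℂ) (y x) ∂μ = 0 := by
    intro ξ
    have h1 := hinn (-ξ)
    have h2 := congrArg (starRingEnd ℂ) h1
    rw [← integral_conj, map_zero] at h2
    rw [← h2]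
    refine integral_congr_ae (Filter.Eventually.of_forall fun x => ?_)
    simp only [map_mul]
    rw [hcexp, neg_neg]
  have hintm : ∀ (g : ℝ → ℂ) (_ : Integrable g μ) (ξ : ℝ), Integrable
      (fun x : ℝ => Complex.exp (2 * Real.pi * Complex.I * ξ * x) * g x) μ := by
    intro g hg ξ
    refine hg.bdd_mul (c := 1) ?_ ?_
    · exact (by fun_prop : Continuous _).aestronglyMeasurable
    · exact Filter.Eventually.of_forall fun x => by rw [norm_cexp']
  have hyc : Integrable (fun x => (starRingEnd ℂ) (y x)) μ := by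
    exact (Complex.conjCLE : ℂ →L[ℝ] ℂ).integrable_comp hy
  have hre : (fun x => (y x).re) =ᵐ[μ] 0 := by
    refine real_zero hy.re fun ξ => ?_
    have : ∀ x : ℝ, Complex.exp (2 * Real.pi * Complex.I * ξ * x) * (((y x).re : ℝ) : ℂ) =
        (Complex.exp (2 * Real.pi * Complex.I * ξ * x) * y x +
          Complex.exp (2 * Real.pi * Complex.I * ξ * x) * (starRingEnd ℂ) (y x)) / 2 := by
      intro x
      rw [Complex.re_eq_add_conj]
      ring
    simp_rw [this]
    rw [integral_div, integral_add (hintm _ hy ξ) (hintm _ hyc ξ), hinn, hconj]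
    simp
  have him : (fun x => (y x).im) =ᵐ[μ] 0 := by
    refine real_zero hy.im fun ξ => ?_
    have : ∀ x : ℝ, Complex.exp (2 * Real.pi * Complex.I * ξ * x) * (((y x).im : ℝ) : ℂ) =
        (Complex.exp (2 * Real.pi * Complex.I * ξ * x) * y x -
          Complex.exp (2 * Real.pi * Complex.I * ξ * x) * (starRingEnd ℂ) (y x)) /
          (2 * Complex.I) := by
      intro x
      rw [Complex.im_eq_sub_conj]
      ring
    simp_rw [this]
    rw [integral_div, integral_sub (hintm _ hy ξ) (hintm _ hyc ξ), hinn, hconj]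
    simp
  rw [Lp.eq_zero_iff_ae_eq_zero]
  filter_upwards [hre, him] with x h1 h2
  apply Complex.ext
  · simpa using h1
  · simpa using h2

lemma spectral_of {Λ : Set ℝ} (hc : Λ.Countable)
    (hd : ∀ a ∈ Λ, ∀ b ∈ Λ, a ≠ b → F μ (b - a) = 0)
    (hs : ∀ ξ : ℝ, 1 ≤ ∑' l : Λ, ENNReal.ofReal (M μ (ξ - l))) : IsSpectrum μ Λ := by
  refine ⟨hc, ?_⟩
  have hv : Orthonormal ℂ (fun l : Λ => ev μ l) := by
    refine ⟨fun l => norm_ev _, fun a b hab => ?_⟩
    change ⟪ev μ a, ev μ b⟫_ℂ = 0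
    rw [inner_ev]
    exact hd a a.2 b b.2 fun h => hab (Subtype.ext h)
  have hbot := orth_eq_bot hv (range (ev μ)) ?_ ?_
  · refine ⟨HilbertBasis.mkOfOrthogonalEqBot hv hbot, fun l => ?_⟩
    rw [HilbertBasis.coe_mkOfOrthogonalEqBot]
    exact ev_ae _
  · intro y hy
    refine total y fun ξ => ?_
    rw [← inner_conj_symm, hy _ ⟨ξ, rfl⟩, map_zero]
  · rintro _ ⟨ξ, rfl⟩
    rw [norm_ev, one_pow, ENNReal.ofReal_one]
    refine (hs ξ).trans (le_of_eq ?_)
    refine tsum_congr fun l => ?_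
    rw [inner_ev]
    rfl

end Hilb

end Pool.Agent.R97.BD.P1

namespace Pool.Agent.R97.BD

open P1

/-- Part B1. -/
theorem b1 : S_B1 := by
  intro p q μ _ hpar hμ
  obtain ⟨hq2, hpq, hdvd⟩ := hpar
  have hq : 0 < q := by omega
  have hp : 2 ≤ p := by omega
  refine ⟨fun t => ‖mask q t‖ ^ 2, M μ, ⟨⟨hq2, hpq, hdvd⟩, fun t => by positivity, ?_, ?_, ?_, ?_,
    ?_, ?_, ?_, ?_, ?_⟩, ?_⟩
  · rw [mask_zero hq, norm_one, one_pow]
  · intro t
    rw [mask_per hq]
  · exact mask_sum hq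
  · intro t
    unfold M
    positivity
  · intro t
    unfold M
    exact pow_le_one₀ (norm_nonneg _) (norm_F_le t)
  · unfold M
    rw [F_zero, norm_one, one_pow]
  · exact (continuous_F.norm).pow 2
  · intro t
    unfold M
    rw [F_rec hq (by omega) hμ t, norm_mul, mul_pow]
  · have hcont : Continuous (M μ) := (continuous_F.norm).pow 2
    obtain ⟨u, hu, hmin⟩ := (isCompact_Icc (a := (-(3 / 4) : ℝ)) (b := 3 / 4)).exists_isMinOn
      ⟨0, by norm_num, by norm_num⟩ hcont.continuousOn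
    refine ⟨M μ u, ?_, fun t ht => ?_⟩
    · have hu1 : |u| < 1 := by
        rw [abs_lt]
        constructor <;> linarith [hu.1, hu.2]
      have := norm_pos_iff.2 (F_ne_zero hq hp hμ hu1)
      unfold M
      positivity
    · exact hmin (abs_le.1 ht)
  · intro Λ hgood hfull
    have hinj : Function.Injective (fun z : ℤ => (z : ℝ)) := Int.cast_injective
    refine spectral_of ((Set.to_countable Λ).image _) ?_ ?_
    · rintro _ ⟨x, hx, rfl⟩ _ ⟨y, hy, rfl⟩ hxy
      have hxy' : y ≠ x := fun h => hxy (by rw [h])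
      have h1 := F_Zn hq hp hμ (hgood y hy x hx hxy')
      rw [← h1]
      push_cast
      rfl
    · intro ξ
      apply ENNReal.le_of_forall_pos_le_add
      intro δ hδ _
      obtain ⟨S, hS, hsum⟩ := hfull (-ξ) δ (by exact_mod_cast hδ)
      have h1 : ENNReal.ofReal (∑ x ∈ S, M μ (-ξ + x)) ≤
          ∑' l : ((fun z : ℤ => (z : ℝ)) '' Λ : Set ℝ), ENNReal.ofReal (M μ (ξ - l)) := by
        rw [ENNReal.ofReal_sum_of_nonneg (fun x _ => by unfold M; positivity), ← Finset.sum_coe_sort]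
        have hf : Function.Injective (fun x : S => (⟨((x : ℤ) : ℝ), ⟨x, hS x.2, rfl⟩⟩ :
            ((fun z : ℤ => (z : ℝ)) '' Λ : Set ℝ))) := by
          intro x y h
          have h2 : ((x : ℤ) : ℝ) = ((y : ℤ) : ℝ) := congrArg Subtype.val h
          exact Subtype.ext (hinj h2)
        have h3 := ENNReal.tsum_comp_le_tsum_of_injective hf
          (fun l : ((fun z : ℤ => (z : ℝ)) '' Λ : Set ℝ) => ENNReal.ofReal (M μ (ξ - l)))
        rw [tsum_fintype] at h3
        refine le_trans (le_of_eq ?_) h3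
        refine Finset.sum_congr rfl fun x _ => ?_
        simp only
        rw [← M_neg]
        congr 2
        ring
      have h2 : (1 : ℝ≥0∞) ≤ ENNReal.ofReal (∑ x ∈ S, M μ (-ξ + x)) + δ := by
        have e1 : (1 : ℝ≥0∞) = ENNReal.ofReal 1 := ENNReal.ofReal_one.symm
        have e2 : (δ : ℝ≥0∞) = ENNReal.ofReal (δ : ℝ) := (ENNReal.ofReal_coe_nnreal).symm
        have hn : 0 ≤ ∑ x ∈ S, M μ (-ξ + x) :=
          Finset.sum_nonneg fun x _ => by unfold M; positivity
        rw [e1, e2, ← ENNReal.ofReal_add hn (NNReal.coe_nonneg δ)]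
        exact ENNReal.ofReal_le_ofReal (by linarith)
      exact h2.trans (add_le_add_left h1 _)

end Pool.Agent.R97.BD
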