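import Pool.Agent.R97.BD.Sparse

/-! MP_5269d5_an (helper711): the sparse spectrum is Good and Full (part B4). -/

open Finset Filter Topology

namespace Pool.Agent.R97.BD

theorem gz_eq (p q k W : ℕ) : ∃ m : ℤ, (gz p q k W : ℤ) = phi p q W + (q : ℤ) * (p : ℤ) ^ bb q k * m := by
  by_cases hW : W = 0
  · subst hW
    refine ⟨0, ?_⟩
    rw [gz_zero, phi_zero]; simp
  · refine ⟨(p : ℤ) ^ W, ?_⟩
    rw [gz_pos hW]
    push_cast
    rw [pow_add]; ring

/-- strong form of the Z-number property -/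
theorem SS_diff {p q : ℕ} (h : Par p q) (k : ℕ) : ∀ x ∈ SS p q k, ∀ y ∈ SS p q k, x ≠ y →
    ∃ (i : ℕ) (u : ℤ), i < LL q k ∧ ¬ (q : ℤ) ∣ u ∧ (x : ℤ) - y = (p : ℤ) ^ i * u := by
  have hq := h.q2
  have hqp : (q : ℤ) ∣ (p : ℤ) := by exact_mod_cast h.dvd
  induction k with
  | zero =>
    intro x hx y hy hne
    simp only [SS, mem_singleton] at hx hy
    exact absurd (hx.trans hy.symm) hne
  | succ k ih =>
    intro x hx y hy hne
    obtain ⟨x', hx', W, hW, rfl⟩ := mem_SS_succ.1 hx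
    obtain ⟨y', hy', V, hV, rfl⟩ := mem_SS_succ.1 hy
    by_cases hxy : x' = y'
    · subst hxy
      have hWV : W ≠ V := fun h => hne (by rw [h])
      obtain ⟨i, u, hi, hu, e⟩ := phi_sub h (bb q k) W V hW hV hWV
      obtain ⟨m1, e1⟩ := gz_eq p q k W
      obtain ⟨m2, e2⟩ := gz_eq p q k V
      obtain ⟨r, hr⟩ : ∃ r, bb q k = i + r := ⟨bb q k - i, by omega⟩
      refine ⟨LL q k + i, u + (q : ℤ) * ((p : ℤ) ^ r * (m1 - m2)), by rw [LL_succ]; omega, ?_, ?_⟩
      · intro hd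
        exact hu ((Int.dvd_add_left (Dvd.intro _ rfl)).1 hd)
      · push_cast
        rw [e1, e2, hr, pow_add, pow_add]
        linear_combination (p : ℤ) ^ LL q k * e
    · obtain ⟨i, u, hi, hu, e⟩ := ih x' hx' y' hy' hxy
      obtain ⟨r, hr⟩ : ∃ r, LL q k = i + (r + 1) := ⟨LL q k - i - 1, by omega⟩
      refine ⟨i, u + (p : ℤ) * ((p : ℤ) ^ r * ((gz p q k W : ℤ) - gz p q k V)), ?_, ?_, ?_⟩
      · have := LL_lt_succ q k
        omega
      · intro hd
        exact hu ((Int.dvd_add_left (Dvd.dvd.mul_right hqp _)).1 hd)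
      · push_cast
        rw [hr, pow_add, pow_succ]
        linear_combination e

theorem good_Z {p q : ℕ} (h : Par p q) : Good p q (LamZ p q) := by
  rintro _ ⟨K, x, hx, rfl⟩ _ ⟨K', y, hy, rfl⟩ hne
  have hne' : x ≠ y := fun h => hne (by rw [h])
  obtain ⟨i, u, _, hu, e⟩ := SS_diff h (max K K') x (SS_mono h.q2 (le_max_left _ _) hx) y
    (SS_mono h.q2 (le_max_right _ _) hy) hne'
  exact ⟨i, u, hu, e⟩

/-- the decomposition is unique -/
theorem SS_inj {p q : ℕ} (h : Par p q) {k x' y' W V : ℕ} (hx : x' ∈ SS p q k) (hy : y' ∈ SS p q k)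
    (hW : W < q ^ bb q k) (hV : V < q ^ bb q k)
    (he : x' + p ^ LL q k * gz p q k W = y' + p ^ LL q k * gz p q k V) : x' = y' ∧ W = V := by
  have hp := h.p4
  have hqp : (q : ℤ) ∣ (p : ℤ) := by exact_mod_cast h.dvd
  have hp0 : (p : ℤ) ≠ 0 := by
    have : p ≠ 0 := by omega
    exact_mod_cast this
  have hWV : W = V := by
    by_contra hne
    rcases lt_or_gt_of_ne hne with hlt | hgt
    · have h1 := SS_sep h (x' := y') hx hlt hV
      have : 0 < p ^ (LL q (k + 1) + V) := by positivity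
      omega
    · have h1 := SS_sep h (x' := x') hy hgt hW
      have : 0 < p ^ (LL q (k + 1) + W) := by positivity
      omega
  subst hWV
  exact ⟨by omega, rfl⟩

section
variable {p q : ℕ} {A M : ℝ → ℝ}

theorem sum_SS (h : Ax p q A M) (k : ℕ) : ∀ t : ℝ,
    ∑ x ∈ SS p q k, EE A p (LL q k) (t + x) = 1 := by
  have hp := h.p_pos
  induction k with
  | zero =>
    intro t
    simp [SS, LL, EE]
  | succ k ih =>
    intro t
    have e0 : SS p q (k + 1) = ((SS p q k) ×ˢ Finset.range (q ^ bb q k)).image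
      (fun x => x.1 + p ^ LL q k * gz p q k x.2) := rfl
    rw [e0, Finset.sum_image]
    · rw [Finset.sum_product]
      have e1 : ∀ x ∈ SS p q k, ∑ W ∈ range (q ^ bb q k),
          EE A p (LL q (k + 1)) (t + ((x + p ^ LL q k * gz p q k W : ℕ) : ℝ))
          = EE A p (LL q k) (t + x) := by
        intro x _
        have e2 : ∀ W ∈ range (q ^ bb q k),
            EE A p (LL q (k + 1)) (t + ((x + p ^ LL q k * gz p q k W : ℕ) : ℝ))
            = EE A p (LL q k) (t + x) * EE A p (bb q k) ((t + x) / (p : ℝ) ^ LL q k + phi p q W) := by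
          intro W _
          rw [LL_succ, EE_add h]
          congr 1
          · have e3 : t + ((x + p ^ LL q k * gz p q k W : ℕ) : ℝ)
                = (t + x) + (p : ℝ) ^ LL q k * ((gz p q k W : ℤ) : ℝ) := by
              push_cast; ring
            rw [e3, EE_per h]
          · obtain ⟨m, hm⟩ := gz_eq p q k W
            have hm' : (gz p q k W : ℝ) = phi p q W + (q : ℝ) * (p : ℝ) ^ bb q k * m := by
              exact_mod_cast hm
            have e3 : (t + ((x + p ^ LL q k * gz p q k W : ℕ) : ℝ)) / (p : ℝ) ^ LL q k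
                = ((t + x) / (p : ℝ) ^ LL q k + phi p q W) + (p : ℝ) ^ bb q k * (((q : ℤ) * m : ℤ) : ℝ) := by
              push_cast
              rw [hm']
              field_simp
              ring
            rw [e3, EE_per h]
        rw [Finset.sum_congr rfl e2, ← Finset.mul_sum, sum_phi h, mul_one]
      rw [Finset.sum_congr rfl e1]
      exact ih t
    · rintro ⟨x, W⟩ hx ⟨y, V⟩ hy hxy
      rw [mem_coe, mem_product, mem_range] at hx hy
      obtain ⟨h1, h2⟩ := SS_inj h.par hx.1 hy.1 hx.2 hy.2 hxy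
      simp only at h1 h2
      rw [h1, h2]

theorem M_le_EE (h : Ax p q A M) (n : ℕ) (t : ℝ) : M t ≤ EE A p n t := by
  rw [M_EE h n t]
  exact mul_le_of_le_one_right (EE_nonneg h _ _) (h.M_le_one _)

theorem M_shift (h : Ax p q A M) {c : ℝ} (hc : 0 < c) (hlow : ∀ t, |t| ≤ 3 / 4 → c ≤ M t)
    (m : ℕ) {t : ℝ} (ht : |t| ≤ 3 / 4) : c * c ≤ M (t + q * (p : ℝ) ^ m) := by
  have hp := h.p_pos
  have hp4 := h.p4
  rw [M_EE h (m + 1)]
  have e1 : EE A p (m + 1) (t + q * (p : ℝ) ^ m) = EE A p (m + 1) t := by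
    unfold EE
    refine Finset.prod_congr rfl fun i hi => ?_
    rw [mem_range] at hi
    obtain ⟨r, rfl⟩ : ∃ r, m = i + r := ⟨m - i, by omega⟩
    have e : (t + q * (p : ℝ) ^ (i + r)) / (p : ℝ) ^ i = t / (p : ℝ) ^ i
        + (((q : ℤ) * (p : ℤ) ^ r : ℤ) : ℝ) := by
      rw [pow_add]; push_cast; field_simp
    rw [e]
    exact A_add_dvd h _ (Dvd.intro _ rfl)
  have e2 : (t + q * (p : ℝ) ^ m) / (p : ℝ) ^ (m + 1) = t / (p : ℝ) ^ (m + 1) + q / p := by
    rw [add_div, pow_succ]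
    congr 1
    field_simp
  rw [e1, e2]
  have h1 : c ≤ EE A p (m + 1) t := (hlow t ht).trans (M_le_EE h _ _)
  have hqp : (q : ℝ) / p ≤ 1 / 2 := by
    rw [div_le_iff₀ hp]
    have : (2 * q : ℝ) ≤ p := by exact_mod_cast h.par.pq
    linarith
  have hqp0 : (0 : ℝ) ≤ (q : ℝ) / p := by positivity
  have h2 : |t / (p : ℝ) ^ (m + 1)| ≤ 1 / 4 := by
    rw [abs_div, abs_of_pos (by positivity : (0 : ℝ) < (p : ℝ) ^ (m + 1)), div_le_iff₀ (by positivity)]
    have : (4 : ℝ) ≤ (p : ℝ) ^ (m + 1) := by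
      calc (4 : ℝ) ≤ p := hp4
        _ = (p : ℝ) ^ 1 := (pow_one _).symm
        _ ≤ _ := pow_le_pow_right₀ (by linarith) (by omega)
    linarith
  have h3 : c ≤ M (t / (p : ℝ) ^ (m + 1) + q / p) := by
    apply hlow
    have := abs_add_le (t / (p : ℝ) ^ (m + 1)) ((q : ℝ) / p)
    rw [abs_of_nonneg hqp0] at this
    linarith
  exact mul_le_mul h1 h3 hc.le (hc.le.trans h1)

end

theorem b4 : S_B4 := by
  intro p q A M h
  refine ⟨good_Z h.par, ?_⟩
  obtain ⟨c, hc, hlow⟩ := h.M_low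
  have hp := h.p_pos
  have hp4 := h.p4
  have hc1 : c ≤ 1 := by
    have := hlow 0 (by norm_num)
    rwa [h.M_zero] at this
  have hl : Tendsto (LL q) atTop atTop := (LL_strictMono q).tendsto_atTop
  refine comp h (SS p q) (SS_mono h.par.q2) hl (fun k ξ => sum_SS h k ξ) (mul_pos hc hc) ?_
  intro ξ
  have h1 := tendsto_div_pow h |ξ| hl
  obtain ⟨K0, hK0⟩ := eventually_atTop.1 (h1.eventually_lt_const (show (0 : ℝ) < 1 / 5 by
      norm_num))
  refine ⟨K0 + 1, fun k hk x hx => ?_⟩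
  obtain ⟨κ, rfl⟩ : ∃ κ, k = κ + 1 := ⟨k - 1, by omega⟩
  have h2 := hK0 (κ + 1) (by omega)
  obtain ⟨x', hx', W, hW, rfl⟩ := mem_SS_succ.1 hx
  set Z : ℝ := (p : ℝ) ^ LL q (κ + 1) with hZ
  have hZ0 : 0 < Z := by positivity
  set t : ℝ := (ξ + x' + (p : ℝ) ^ LL q κ * phi p q W) / Z with ht
  have ht1 : |t| ≤ 3 / 4 := by
    have a1 : (x' : ℝ) / Z ≤ 1 / 64 := by
      rw [div_le_iff₀ hZ0]
      have hb := SS_bound h.par κ x' hx'
      have hb' : (x' : ℝ) * (p : ℝ) ^ 3 ≤ Z := by rw [hZ]; exact_mod_cast hb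
      have h64 : (64 : ℝ) ≤ (p : ℝ) ^ 3 := by
        calc (64 : ℝ) = 4 ^ 3 := by norm_num
          _ ≤ (p : ℝ) ^ 3 := by gcongr
      have : (x' : ℝ) * 64 ≤ (x' : ℝ) * (p : ℝ) ^ 3 := by gcongr
      linarith
    have a2 : ((p : ℝ) ^ LL q κ * phi p q W) / Z ≤ 1 / 2 := by
      rw [div_le_iff₀ hZ0]
      have hb := phi_lt h.par (bb q κ) W hW
      have hb' : (2 * phi p q W : ℝ) ≤ (p : ℝ) ^ bb q κ := by exact_mod_cast hb.le
      have : (p : ℝ) ^ LL q κ * (2 * phi p q W) ≤ (p : ℝ) ^ LL q κ * (p : ℝ) ^ bb q κ := by gcongr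
      rw [← pow_add, ← LL_succ, ← hZ] at this
      linarith
    have a3 : t = ξ / Z + x' / Z + ((p : ℝ) ^ LL q κ * phi p q W) / Z := by
      rw [ht, add_div, add_div]
    have a4 : |ξ / Z| = |ξ| / Z := by rw [abs_div, abs_of_pos hZ0]
    have a5 := abs_add_le (ξ / Z + x' / Z) (((p : ℝ) ^ LL q κ * phi p q W) / Z)
    have a6 := abs_add_le (ξ / Z) ((x' : ℝ) / Z)
    have a7 : |(x' : ℝ) / Z| = x' / Z := abs_of_nonneg (by positivity)
    have a8 : |((p : ℝ) ^ LL q κ * phi p q W) / Z| = ((p : ℝ) ^ LL q κ * phi p q W) / Z :=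
      abs_of_nonneg (by positivity)
    rw [a8, ← a3] at a5
    rw [a4, a7] at a6
    linarith
  by_cases hW0 : W = 0
  · have e1 : (ξ + ((x' + p ^ LL q κ * gz p q κ W : ℕ) : ℝ)) / Z = t := by
      rw [ht, hW0, gz_zero, phi_zero]; simp
    rw [e1]
    have := hlow t ht1
    nlinarith
  · have e1 : (ξ + ((x' + p ^ LL q κ * gz p q κ W : ℕ) : ℝ)) / Z = t + q * (p : ℝ) ^ W := by
      rw [ht, gz_pos hW0, hZ, LL_succ, pow_add (p : ℝ) (LL q κ)]
      push_cast
      rw [pow_add (p : ℝ) (bb q κ)]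
      field_simp
      ring
    rw [e1]
    exact M_shift h hc hlow W ht1

end Pool.Agent.R97.BD
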