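import Pool.Agent.R97.BD.Sparse

/-! MP_5269d5_an (helper711): the sparse spectrum is sparse (part B5). -/

open Finset Filter Topology

namespace Pool.Agent.R97.BD

theorem card_SS_le {p q : ℕ} (k : ℕ) : (SS p q k).card ≤ q ^ LL q k := by
  induction k with
  | zero => simp [SS, LL]
  | succ k ih =>
    simp only [SS]
    refine Finset.card_image_le.trans ?_
    rw [Finset.card_product, Finset.card_range]
    rw [show LL q (k + 1) = LL q k + (q ^ LL q k + 5) from rfl, pow_add q (LL q k)]
    exact Nat.mul_le_mul_right _ ih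

theorem exists_stage {q : ℕ} (n : ℕ) : ∃ k, LL q k ≤ n ∧ n < LL q (k + 1) := by
  have hex : ∃ k, n < LL q (k + 1) := by
    refine ⟨n, ?_⟩
    exact lt_of_lt_of_le (Nat.lt_succ_self n) ((LL_strictMono q).le_apply)
  refine ⟨Nat.find hex, ?_, Nat.find_spec hex⟩
  rcases h0 : Nat.find hex with _ | m
  · simp [LL]
  · have := Nat.find_min hex (m := m) (by omega)
    omega

/-- main counting statement -/
theorem count_SS {p q : ℕ} (h : Par p q) {n k : ℕ} (hk1 : LL q k ≤ n) (hk2 : n < LL q (k + 1))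
    (K : ℕ) : ∀ T : Finset ℤ, (∀ x ∈ T, ∃ y ∈ SS p q K, x = (y : ℤ)) →
      (∀ x ∈ T, ∀ y ∈ T, x - y < (p : ℤ) ^ n) →
      T.card ≤ (n + 1) * q ^ (if k = 0 then 0 else LL q (k - 1)) := by
  have hp := h.p4
  have hq := h.q2
  induction K with
  | zero =>
    intro T hT _
    have h1 : T ⊆ {0} := by
      intro x hx
      obtain ⟨y, hy, rfl⟩ := hT x hx
      simp only [SS, mem_singleton] at hy
      simp [hy]
    refine (Finset.card_le_card h1).trans ?_
    rw [Finset.card_singleton]
    have : 0 < (n + 1) * q ^ (if k = 0 then 0 else LL q (k - 1)) := by positivity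
    omega
  | succ K ih =>
    intro T hT hd
    rcases T.eq_empty_or_nonempty with rfl | ⟨x0, hx0⟩
    · simp
    by_cases hK : k ≤ K
    · -- the last block is constant
      obtain ⟨y0, hy0, rfl⟩ := hT x0 hx0
      obtain ⟨x', hx', W0, hW0, rfl⟩ := mem_SS_succ.1 hy0
      have hLk : LL q (k + 1) ≤ LL q (K + 1) := (LL_strictMono q).monotone (by omega)
      have hno : ∀ m : ℕ, ¬ ((p : ℤ) ^ (LL q (K + 1) + m) < (p : ℤ) ^ n) := by
        intro m hm
        have : (p : ℤ) ^ n ≤ (p : ℤ) ^ (LL q (K + 1) + m) :=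
          pow_le_pow_right₀ (by exact_mod_cast (by omega : 1 ≤ p)) (by omega)
        omega
      set c : ℤ := ((p ^ LL q K * gz p q K W0 : ℕ) : ℤ) with hc
      have hT' : ∀ x ∈ T, ∃ y ∈ SS p q K, x - c = (y : ℤ) := by
        intro x hx
        obtain ⟨y, hy, rfl⟩ := hT x hx
        obtain ⟨y', hy', W, hW, rfl⟩ := mem_SS_succ.1 hy
        have hWW : W = W0 := by
          by_contra hne
          rcases lt_or_gt_of_ne hne with hlt | hgt
          · have h1 := SS_sep h (x' := x') hy' hlt hW0
            have h2 := hd _ hx0 _ hx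
            apply hno W0
            have h1' : ((y' + p ^ LL q K * gz p q K W : ℕ) : ℤ) + (p : ℤ) ^ (LL q (K + 1) + W0)
              ≤ ((x' + p ^ LL q K * gz p q K W0 : ℕ) : ℤ) := by exact_mod_cast h1
            linarith
          · have h1 := SS_sep h (x' := y') hx' hgt hW
            have h2 := hd _ hx _ hx0
            apply hno W
            have h1' : ((x' + p ^ LL q K * gz p q K W0 : ℕ) : ℤ) + (p : ℤ) ^ (LL q (K + 1) + W)
              ≤ ((y' + p ^ LL q K * gz p q K W : ℕ) : ℤ) := by exact_mod_cast h1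
            linarith
        subst hWW
        refine ⟨y', hy', ?_⟩
        rw [hc]; push_cast; ring
      have h3 := ih (T.image (fun x => x - c)) (by
        intro x hx
        obtain ⟨y, hy, rfl⟩ := mem_image.1 hx
        exact hT' y hy) (by
        intro x hx y hy
        obtain ⟨x1, hx1, rfl⟩ := mem_image.1 hx
        obtain ⟨y1, hy1, rfl⟩ := mem_image.1 hy
        have := hd x1 hx1 y1 hy1
        linarith)
      rwa [Finset.card_image_of_injective _ (fun a b hab => by simpa using hab)] at h3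
    · -- K < k, so `T` lies in `SS k`
      have hk0 : k ≠ 0 := by omega
      obtain ⟨κ, rfl⟩ : ∃ κ, k = κ + 1 := ⟨k - 1, by omega⟩
      rw [if_neg hk0, Nat.add_sub_cancel]
      have hTk : ∀ x ∈ T, ∃ y ∈ SS p q (κ + 1), x = (y : ℤ) := by
        intro x hx
        obtain ⟨y, hy, rfl⟩ := hT x hx
        exact ⟨y, SS_mono hq (by omega : K + 1 ≤ κ + 1) hy, rfl⟩
      classical
      set Wset : Finset ℕ := (range (q ^ bb q κ)).filter
        (fun W => ∃ x' ∈ SS p q κ, ((x' + p ^ LL q κ * gz p q κ W : ℕ) : ℤ) ∈ T) with hWset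
      have hcard : Wset.card ≤ n + 1 := by
        by_cases hall : ∀ W ∈ Wset, W < n
        · have : Wset ⊆ range n := fun W hW => mem_range.2 (hall W hW)
          have := Finset.card_le_card this
          rw [Finset.card_range] at this
          omega
        · push Not at hall
          obtain ⟨W1, hW1, hn1⟩ := hall
          have hsub : Wset ⊆ {W1} := by
            intro V hV
            rw [mem_singleton]
            by_contra hne
            rw [hWset, mem_filter, mem_range] at hW1 hV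
            obtain ⟨hW1r, x', hx', hx'T⟩ := hW1
            obtain ⟨hVr, y', hy', hy'T⟩ := hV
            rcases lt_or_gt_of_ne hne with hlt | hgt
            · have h1 := SS_sep h (x' := x') hy' hlt hW1r
              have h2 := hd _ hx'T _ hy'T
              have h1' : ((y' + p ^ LL q κ * gz p q κ V : ℕ) : ℤ) + (p : ℤ) ^ (LL q (κ + 1) + W1)
                ≤ ((x' + p ^ LL q κ * gz p q κ W1 : ℕ) : ℤ) := by exact_mod_cast h1
              have : (p : ℤ) ^ n ≤ (p : ℤ) ^ (LL q (κ + 1) + W1) :=
                pow_le_pow_right₀ (by exact_mod_cast (by omega : 1 ≤ p)) (by omega)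
              linarith
            · have h1 := SS_sep h (x' := y') hx' hgt hVr
              have h2 := hd _ hy'T _ hx'T
              have h1' : ((x' + p ^ LL q κ * gz p q κ W1 : ℕ) : ℤ) + (p : ℤ) ^ (LL q (κ + 1) + V)
                ≤ ((y' + p ^ LL q κ * gz p q κ V : ℕ) : ℤ) := by exact_mod_cast h1
              have : (p : ℤ) ^ n ≤ (p : ℤ) ^ (LL q (κ + 1) + V) :=
                pow_le_pow_right₀ (by exact_mod_cast (by omega : 1 ≤ p)) (by omega)
              linarith
          have := Finset.card_le_card hsub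
          rw [Finset.card_singleton] at this
          omega
      have hsub : T ⊆ (Wset ×ˢ SS p q κ).image
          (fun x => ((x.2 + p ^ LL q κ * gz p q κ x.1 : ℕ) : ℤ)) := by
        intro x hx
        obtain ⟨y, hy, rfl⟩ := hTk x hx
        obtain ⟨y', hy', W, hW, rfl⟩ := mem_SS_succ.1 hy
        rw [mem_image]
        refine ⟨(W, y'), ?_, rfl⟩
        rw [mem_product, hWset, mem_filter, mem_range]
        exact ⟨⟨hW, y', hy', hx⟩, hy'⟩
      refine (Finset.card_le_card hsub).trans (Finset.card_image_le.trans ?_)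
      rw [Finset.card_product]
      exact Nat.mul_le_mul hcard (card_SS_le κ)

theorem count_Z {p q : ℕ} (h : Par p q) (n : ℕ) (T : Finset ℤ) (hT : (↑T : Set ℤ) ⊆ LamZ p q)
    (hd : ∀ x ∈ T, ∀ y ∈ T, x - y < (p : ℤ) ^ n) :
    T.card ≤ (n + 1) * q ^ (n / 2) := by
  have hq := h.q2
  obtain ⟨k, hk1, hk2⟩ := exists_stage (q := q) n
  -- common stage
  have hK : ∃ K, ∀ x ∈ T, ∃ y ∈ SS p q K, x = (y : ℤ) := by
    clear hd
    induction T using Finset.induction_on with
    | empty => exact ⟨0, by simp⟩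
    | insert a s ha ih =>
      obtain ⟨K, hK⟩ := ih (fun x hx => hT (by simp at hx ⊢; exact Or.inr hx))
      obtain ⟨K', y', hy', e⟩ := hT (show a ∈ (↑(insert a s) : Set ℤ) by simp)
      refine ⟨max K K', fun x hx => ?_⟩
      rw [mem_insert] at hx
      rcases hx with rfl | hx
      · exact ⟨y', SS_mono hq (le_max_right _ _) hy', e⟩
      · obtain ⟨y, hy, e'⟩ := hK x hx
        exact ⟨y, SS_mono hq (le_max_left _ _) hy, e'⟩
  obtain ⟨K, hK⟩ := hK
  refine (count_SS h hk1 hk2 K T hK hd).trans ?_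
  apply Nat.mul_le_mul_left
  apply Nat.pow_le_pow_right (by omega)
  split_ifs with h0
  · omega
  · obtain ⟨κ, rfl⟩ : ∃ κ, k = κ + 1 := ⟨k - 1, by omega⟩
    rw [Nat.add_sub_cancel]
    rw [LL_succ] at hk1
    have : LL q κ < q ^ LL q κ := Nat.lt_pow_self (by omega)
    unfold bb at hk1
    omega

theorem b5 : S_B5 := by
  intro p q h ε hε
  have hq := h.q2
  have hq1 : (1 : ℝ) < q := by exact_mod_cast (by omega : 1 < q)
  -- choose n0
  have hlim : Tendsto (fun m : ℕ => ((m : ℝ) ^ 1) / (Real.sqrt q) ^ m) atTop (𝓝 0) := by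
    have hs1 : 1 < Real.sqrt q := by
      rw [show (1:ℝ) = Real.sqrt 1 by simp]
      exact Real.sqrt_lt_sqrt (by norm_num) hq1
    exact tendsto_pow_const_div_const_pow_of_one_lt 1 hs1
  have h1 := hlim.comp (tendsto_add_atTop_nat 1)
  have hs : 0 < Real.sqrt q := by positivity
  obtain ⟨n0, hn0⟩ := eventually_atTop.1 (h1.eventually_lt_const (show (0 : ℝ) < ε / Real.sqrt q by positivity))
  refine ⟨((n0 : ℝ) + 1) * (q : ℝ) ^ n0, fun n T hT hd => ?_⟩
  have hc := count_Z h n T hT hd
  have hc' : (T.card : ℝ) ≤ ((n : ℝ) + 1) * (q : ℝ) ^ (n / 2) := by exact_mod_cast hc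
  have hq0 : (0 : ℝ) < q := by positivity
  by_cases hn : n0 ≤ n
  · have h2 := hn0 n hn
    simp only [Function.comp, pow_one] at h2
    rw [div_lt_div_iff₀ (by positivity) hs] at h2
    push_cast at h2
    have h3 : ((n : ℝ) + 1) ≤ ε * Real.sqrt q ^ n := by
      rw [pow_succ] at h2
      have : ((n : ℝ) + 1) * Real.sqrt q < (ε * Real.sqrt q ^ n) * Real.sqrt q := by linarith
      exact (lt_of_mul_lt_mul_right this hs.le).le
    have h4 : (q : ℝ) ^ (n / 2) ≤ Real.sqrt q ^ n := by
      have e : (q : ℝ) = Real.sqrt q ^ 2 := (Real.sq_sqrt hq0.le).symm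
      calc (q : ℝ) ^ (n / 2) = Real.sqrt q ^ (2 * (n / 2)) := by
            rw [pow_mul, ← e]
        _ ≤ Real.sqrt q ^ n := by
          apply pow_le_pow_right₀ _ (by omega)
          rw [show (1:ℝ) = Real.sqrt 1 by simp]
          exact Real.sqrt_le_sqrt hq1.le
    have h5 : Real.sqrt q ^ n * Real.sqrt q ^ n = (q : ℝ) ^ n := by
      rw [← mul_pow, Real.mul_self_sqrt hq0.le]
    have h6 : 0 ≤ ((n0 : ℝ) + 1) * (q : ℝ) ^ n0 := by positivity
    calc (T.card : ℝ) ≤ ((n : ℝ) + 1) * (q : ℝ) ^ (n / 2) := hc'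
      _ ≤ (ε * Real.sqrt q ^ n) * Real.sqrt q ^ n := by gcongr
      _ = ε * (q : ℝ) ^ n := by rw [mul_assoc, h5]
      _ ≤ _ := by linarith
  · push Not at hn
    have h6 : ((n : ℝ) + 1) * (q : ℝ) ^ (n / 2) ≤ ((n0 : ℝ) + 1) * (q : ℝ) ^ n0 := by
      gcongr
      · exact hq1.le
      · omega
    have h7 : 0 ≤ ε * (q : ℝ) ^ n := by positivity
    linarith

end Pool.Agent.R97.BD
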