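import Pool.Agent.R97.BD.Phi

/-! MP_5269d5_an: part B6, counting in the standard spectrum (helper68). -/

open Finset Filter Topology

namespace Pool.Agent.R97.BD

theorem phi_one (p : ℕ) {q : ℕ} (hq : 2 ≤ q) : phi p q 1 = 1 := by
  have := phi_step p hq 0 1 (by omega)
  simpa [phi_zero] using this

theorem phi_superadd {p q : ℕ} (h : Par p q) : ∀ n a b : ℕ, a + b ≤ n →
    phi p q a + phi p q b ≤ phi p q (a + b) := by
  have hq := h.q2
  have hp := h.pq
  intro n
  induction n using Nat.strong_induction_on with
  | _ n ih =>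
    intro a b hab
    obtain ⟨a', x, hx, rfl, -⟩ := exists_step hq a
    obtain ⟨b', y, hy, rfl, -⟩ := exists_step hq b
    rw [phi_step p hq a' x hx, phi_step p hq b' y hy]
    by_cases hsmall : a' + b' = 0
    · have ha' : a' = 0 := by omega
      have hb' : b' = 0 := by omega
      subst ha' hb'
      rw [phi_zero]
      by_cases hxy : x + y < q
      · have e : q * 0 + x + (q * 0 + y) = q * 0 + (x + y) := by ring
        rw [e, phi_step p hq 0 (x + y) hxy, phi_zero]
        omega
      · push Not at hxy
        have e : q * 0 + x + (q * 0 + y) = q * 1 + (x + y - q) := by omega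
        rw [e, phi_step p hq 1 (x + y - q) (by omega), phi_one p hq]
        omega
    · have h1 : 2 * (a' + b') ≤ q * (a' + b') := Nat.mul_le_mul_right _ hq
      have h2 : q * (a' + b') = q * a' + q * b' := by ring
      have hlt1 : a' + b' < n := by omega
      have i1 := ih (a' + b') hlt1 a' b' le_rfl
      have i1' := Nat.mul_le_mul_left p i1
      rw [mul_add] at i1'
      by_cases hxy : x + y < q
      · have e : q * a' + x + (q * b' + y) = q * (a' + b') + (x + y) := by ring
        rw [e, phi_step p hq (a' + b') (x + y) hxy]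
        omega
      · push Not at hxy
        have e : q * a' + x + (q * b' + y) = q * (a' + b' + 1) + (x + y - q) := by
          have : q * (a' + b' + 1) = q * a' + q * b' + q := by ring
          omega
        rw [e, phi_step p hq (a' + b' + 1) (x + y - q) (by omega)]
        have hlt2 : a' + b' + 1 < n := by omega
        have i2 := ih (a' + b' + 1) hlt2 (a' + b') 1 le_rfl
        rw [phi_one p hq] at i2
        have i2' := Nat.mul_le_mul_left p i2
        rw [mul_add, mul_one] at i2'
        omega

theorem phi_mono {p q : ℕ} (h : Par p q) {a b : ℕ} (hab : a ≤ b) : phi p q a ≤ phi p q b := by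
  have := phi_superadd h b a (b - a) (by omega)
  have e : a + (b - a) = b := by omega
  rw [e] at this
  omega

theorem par_pos {p q : ℕ} (h : Par p q) : (1 : ℝ) < q ∧ (1 : ℝ) < p ∧ (q : ℝ) ≤ p := by
  have h1 := h.q2
  have h2 := h.pq
  refine ⟨?_, ?_, ?_⟩
  · have : 1 < q := by omega
    exact_mod_cast this
  · have : 1 < p := by omega
    exact_mod_cast this
  · have : q ≤ p := by omega
    exact_mod_cast this

theorem one_le_tau {p q : ℕ} (h : Par p q) : 1 ≤ Real.log p / Real.log q := by
  obtain ⟨h1, h2, h3⟩ := par_pos h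
  rw [le_div_iff₀ (Real.log_pos h1), one_mul]
  exact Real.log_le_log (by linarith) h3

theorem q_rpow_tau {p q : ℕ} (h : Par p q) : (q : ℝ) ^ (Real.log p / Real.log q) = p := by
  obtain ⟨h1, h2, h3⟩ := par_pos h
  rw [Real.rpow_def_of_pos (by linarith)]
  have : Real.log q * (Real.log p / Real.log q) = Real.log p := by
    have := (Real.log_pos h1).ne'
    field_simp
  rw [this, Real.exp_log (by linarith)]

theorem slope_bound {τ : ℝ} (hτ : 1 ≤ τ) {Q x y : ℝ} (hQ : 1 < Q) (hx : 1 ≤ x) (hxy : x ≤ y)
    (hy : Q ≤ y) : (Q ^ τ - 1) / (Q - 1) * (y - x) ≤ y ^ τ - x ^ τ := by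
  rcases eq_or_lt_of_le hxy with rfl | hlt
  · simp
  · have hconv := convexOn_rpow hτ
    have hy1 : 1 < y := lt_of_lt_of_le hQ hy
    have s1 := hconv.secant_mono (a := 1) (x := Q) (y := y) (by simp)
      (by simp; linarith) (by simp; linarith) hQ.ne' hy1.ne' hy
    have s2 := hconv.secant_mono (a := y) (x := 1) (y := x) (by simp; linarith)
      (by simp) (by simp; linarith) hy1.ne hlt.ne hx
    simp only [Real.one_rpow] at s1 s2
    have e1 : (1 - y ^ τ) / (1 - y) = (y ^ τ - 1) / (y - 1) := by
      rw [← neg_sub (y ^ τ) 1, ← neg_sub y 1, neg_div_neg_eq]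
    have e2 : (x ^ τ - y ^ τ) / (x - y) = (y ^ τ - x ^ τ) / (y - x) := by
      rw [← neg_sub (y ^ τ) (x ^ τ), ← neg_sub y x, neg_div_neg_eq]
    rw [e1, e2] at s2
    have s3 := s1.trans s2
    rw [le_div_iff₀ (by linarith)] at s3
    exact s3

theorem phi_lower {p q : ℕ} (h : Par p q) : ∀ n : ℕ,
    ((q : ℝ) - 1) / (p - 1) * ((n : ℝ) + 1) ^ (Real.log p / Real.log q)
      ≤ phi p q n + ((q : ℝ) - 1) / (p - 1) := by
  obtain ⟨h1, h2, h3⟩ := par_pos h
  have hq := h.q2
  set c : ℝ := ((q : ℝ) - 1) / (p - 1) with hc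
  set τ : ℝ := Real.log p / Real.log q with hτ
  have hcpos : 0 < c := by rw [hc]; apply div_pos <;> linarith
  have hcp : c * (p - 1) = q - 1 := by
    rw [hc]; field_simp
    rw [mul_div_assoc, div_self (by linarith), mul_one]
  intro n
  induction n using Nat.strong_induction_on with
  | _ n ih =>
    rcases Nat.eq_zero_or_pos n with rfl | hn
    · simp [phi_zero]
    · obtain ⟨n', a, ha, hn', -⟩ := exists_step hq n
      have hlt : n' < n := by
        rw [hn']
        rcases Nat.eq_zero_or_pos n' with h0 | h0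
        · subst h0; omega
        · have : 2 * n' ≤ q * n' := Nat.mul_le_mul_right _ hq
          omega
      have i1 := ih n' hlt
      have hphi : phi p q n = a + p * phi p q n' := by rw [hn', phi_step p hq n' a ha]
      rw [hphi]
      push_cast
      have hτ1 : 1 ≤ τ := one_le_tau h
      have hqτ : (q : ℝ) ^ τ = p := q_rpow_tau h
      have hn'0 : (0 : ℝ) ≤ n' := Nat.cast_nonneg _
      have ha1 : (a : ℝ) + 1 ≤ q := by exact_mod_cast ha
      have ha0 : (0 : ℝ) ≤ a := Nat.cast_nonneg _
      have e1 : (p : ℝ) * ((n' : ℝ) + 1) ^ τ = ((q : ℝ) * n' + q) ^ τ := by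
        rw [← hqτ, ← Real.mul_rpow (by linarith) (by linarith)]
        congr 1; ring
      have hsl := slope_bound hτ1 (Q := q) (x := (q : ℝ) * n' + a + 1) (y := (q : ℝ) * n' + q)
        h1 (by nlinarith) (by linarith) (by nlinarith)
      rw [hqτ] at hsl
      have hinv : ((p : ℝ) - 1) / (q - 1) = 1 / c := by
        rw [hc]; rw [one_div_div]
      rw [hinv] at hsl
      have hsl2 : ((q : ℝ) * n' + q - (q * n' + a + 1)) ≤
          c * (((q : ℝ) * n' + q) ^ τ - ((q : ℝ) * n' + a + 1) ^ τ) := by
        have := mul_le_mul_of_nonneg_left hsl hcpos.le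
        rw [← mul_assoc, mul_one_div, div_self hcpos.ne', one_mul] at this
        exact this
      have hnr : (n : ℝ) + 1 = (q : ℝ) * n' + a + 1 := by
        rw [hn']; push_cast; ring
      rw [hnr]
      have i2 : (p : ℝ) * (c * ((n' : ℝ) + 1) ^ τ) ≤ p * (phi p q n' + c) := by
        gcongr
      have i3 : c * ((q : ℝ) * n' + q) ^ τ ≤ p * phi p q n' + p * c := by
        rw [← e1]; linarith
      nlinarith

theorem b6 : S_B6 := by
  intro p q hpar h T hh hT hdiff
  obtain ⟨h1, h2, h3⟩ := par_pos hpar
  have hq := hpar.q2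
  have hYpos : 0 < 2 * h * ((p - 1 : ℝ) / (q - 1)) + 1 := by
    have : 0 < (p - 1 : ℝ) / (q - 1) := by apply div_pos <;> linarith
    positivity
  rcases T.eq_empty_or_nonempty with rfl | hne
  · simp only [card_empty, Nat.cast_zero]
    positivity
  · have hex : ∀ z ∈ T, ∃ W : ℕ, z = (phi p q W : ℤ) := fun z hz => hT (by exact_mod_cast hz)
    choose! w hw using hex
    set S : Finset ℕ := T.image w with hS
    have hScard : S.card = T.card := by
      rw [hS, card_image_of_injOn]
      intro x hx y hy hxy
      rw [hw x hx, hw y hy, hxy]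
    have hSne : S.Nonempty := hne.image w
    set a := S.min' hSne with ha
    set b := S.max' hSne with hb
    have haS : a ∈ S := S.min'_mem hSne
    have hbS : b ∈ S := S.max'_mem hSne
    have hab : a ≤ b := S.min'_le b hbS
    have hsub : S ⊆ Icc a b := fun x hx => mem_Icc.2 ⟨S.min'_le x hx, S.le_max' x hx⟩
    have hcard : T.card ≤ b - a + 1 := by
      rw [← hScard]
      refine (card_le_card hsub).trans ?_
      rw [Nat.card_Icc]
      omega
    obtain ⟨za, hza, hza'⟩ := mem_image.1 haS
    obtain ⟨zb, hzb, hzb'⟩ := mem_image.1 hbS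
    have hd := hdiff zb hzb za hza
    rw [hw zb hzb, hw za hza, hza', hzb'] at hd
    have hsup := phi_superadd hpar b a (b - a) (by omega)
    have e : a + (b - a) = b := by omega
    rw [e] at hsup
    have hpos : 1 ≤ T.card := hne.card_pos
    have hmono : phi p q (T.card - 1) ≤ phi p q (b - a) := phi_mono hpar (by omega)
    have hlt : (phi p q (T.card - 1) : ℝ) < 2 * h := by
      have i1 : (phi p q a : ℝ) + phi p q (b - a) ≤ phi p q b := by exact_mod_cast hsup
      have i2 : (phi p q (T.card - 1) : ℝ) ≤ phi p q (b - a) := by exact_mod_cast hmono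
      push_cast at hd
      linarith
    have hlow := phi_lower hpar (T.card - 1)
    have hcast : ((T.card - 1 : ℕ) : ℝ) + 1 = T.card := by
      rw [Nat.cast_sub hpos]; push_cast; ring
    rw [hcast] at hlow
    set c : ℝ := ((q : ℝ) - 1) / (p - 1) with hc
    have hcpos : 0 < c := by rw [hc]; apply div_pos <;> linarith
    have hinv : ((p : ℝ) - 1) / (q - 1) = 1 / c := by
      rw [hc]; rw [one_div_div]
    rw [hinv]
    have hle : (T.card : ℝ) ^ (Real.log p / Real.log q) ≤ 2 * h * (1 / c) + 1 := by
      have i1 : c * (T.card : ℝ) ^ (Real.log p / Real.log q) ≤ 2 * h + c := by linarith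
      have i2 : (T.card : ℝ) ^ (Real.log p / Real.log q) ≤ (2 * h + c) / c := by
        rw [le_div_iff₀ hcpos]; linarith
      refine i2.trans (le_of_eq ?_)
      rw [add_div, div_self hcpos.ne', mul_one_div]
    have hlq := Real.log_pos h1
    have hlp := Real.log_pos h2
    calc (T.card : ℝ) = ((T.card : ℝ) ^ (Real.log p / Real.log q)) ^ (Real.log q / Real.log p) := by
          rw [← Real.rpow_mul (Nat.cast_nonneg _)]
          have : Real.log p / Real.log q * (Real.log q / Real.log p) = 1 := by
            field_simp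
          rw [this, Real.rpow_one]
      _ ≤ (2 * h * (1 / c) + 1) ^ (Real.log q / Real.log p) := by
          exact Real.rpow_le_rpow (Real.rpow_nonneg (Nat.cast_nonneg _) _) hle
            (div_pos hlq hlp).le

end Pool.Agent.R97.BD
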