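import Pool.Agent.R97.BD.B8

/-! MP_5269d5_an: part B7, upper density of the mixture (helper68). -/

open Finset Filter Topology

namespace Pool.Agent.R97.BD

theorem rpow_add_one_le {x s : ℝ} (hx : 0 ≤ x) (hs0 : 0 ≤ s) (hs1 : s ≤ 1) :
    (x + 1) ^ s ≤ x ^ s + 1 := by
  lift x to NNReal using hx
  have := NNReal.rpow_add_le_add_rpow x 1 hs0 hs1
  rw [NNReal.one_rpow] at this
  exact_mod_cast this

theorem p_rpow_s {p q : ℕ} (h : Par p q) : (p : ℝ) ^ (Real.log q / Real.log p) = q := by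
  have h1 := h.q2
  have h2 := h.pq
  have hp : (1 : ℝ) < p := by
    have : 1 < p := by omega
    exact_mod_cast this
  have hq : (0 : ℝ) < q := by
    have : 0 < q := by omega
    exact_mod_cast this
  rw [Real.rpow_def_of_pos (by linarith)]
  have : Real.log p * (Real.log q / Real.log p) = Real.log q := by
    have := (Real.log_pos hp).ne'
    field_simp
  rw [this, Real.exp_log hq]

theorem s_bounds {p q : ℕ} (h : Par p q) :
    0 < Real.log q / Real.log p ∧ Real.log q / Real.log p ≤ 1 := by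
  have h1 := h.q2
  have h2 := h.pq
  have hp : (1 : ℝ) < p := by
    have : 1 < p := by omega
    exact_mod_cast this
  have hq : (1 : ℝ) < q := by
    have : 1 < q := by omega
    exact_mod_cast this
  have hqp : (q : ℝ) ≤ p := by
    have : q ≤ p := by omega
    exact_mod_cast this
  refine ⟨div_pos (Real.log_pos hq) (Real.log_pos hp), ?_⟩
  rw [div_le_one (Real.log_pos hp)]
  exact Real.log_le_log (by linarith) hqp

theorem pow_rpow_s {p q : ℕ} (h : Par p q) (n : ℕ) :
    ((p : ℝ) ^ n) ^ (Real.log q / Real.log p) = (q : ℝ) ^ n := by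
  rw [← Real.rpow_natCast, ← Real.rpow_mul (Nat.cast_nonneg _), mul_comm,
    Real.rpow_mul (Nat.cast_nonneg _), p_rpow_s h, Real.rpow_natCast]

theorem rescale (T : Finset ℤ) (Γ : Set ℤ) (A B : ℤ) (hB : 0 < B)
    (hT : ∀ z ∈ T, ∃ x ∈ Γ, z = A + B * x) (h : ℝ)
    (hd : ∀ x ∈ T, ∀ y ∈ T, ((x - y : ℤ) : ℝ) < 2 * h) :
    ∃ T' : Finset ℤ, T'.card = T.card ∧ (↑T' : Set ℤ) ⊆ Γ ∧
      ∀ x ∈ T', ∀ y ∈ T', ((x - y : ℤ) : ℝ) < 2 * (h / B) := by
  classical
  choose! w hw using hT
  refine ⟨T.image w, ?_, ?_, ?_⟩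
  · rw [card_image_of_injOn]
    intro x hx y hy hxy
    rw [(hw x hx).2, (hw y hy).2, hxy]
  · intro x hx
    obtain ⟨z, hz, rfl⟩ := mem_image.1 (by exact_mod_cast hx)
    exact (hw z hz).1
  · intro x hx y hy
    obtain ⟨z, hz, rfl⟩ := mem_image.1 hx
    obtain ⟨z', hz', rfl⟩ := mem_image.1 hy
    have h1 := hd z hz z' hz'
    have h2 : z - z' = B * (w z - w z') := by
      conv_lhs => rw [(hw z hz).2, (hw z' hz').2]
      ring
    rw [h2] at h1
    have hBr : (0 : ℝ) < B := by exact_mod_cast hB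
    rw [mul_div_assoc', lt_div_iff₀ hBr]
    push_cast at h1 ⊢
    linarith

theorem sum_pow_le {q : ℕ} (hq : 2 ≤ q) (m : ℕ) :
    ∑ i ∈ range m, (q : ℝ) ^ i ≤ (q : ℝ) ^ m := by
  have hq' : (2 : ℝ) ≤ q := by exact_mod_cast hq
  induction m with
  | zero => simp
  | succ m ih =>
    rw [sum_range_succ, pow_succ]
    have : (0 : ℝ) < (q : ℝ) ^ m := by positivity
    nlinarith

theorem b7 : S_B7 := by
  classical
  intro hB5 hB6 p q hpar g γ hg hγ ε hε
  have hq2 := hpar.q2
  have hpq := hpar.pq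
  have hq1 : (1 : ℝ) < q := by
    have : 1 < q := by omega
    exact_mod_cast this
  have hp1 : (1 : ℝ) < p := by
    have : 1 < p := by omega
    exact_mod_cast this
  have hpz : (0 : ℤ) < p := by
    have : 0 < p := by omega
    exact_mod_cast this
  obtain ⟨hs0, hs1⟩ := s_bounds hpar
  set s : ℝ := Real.log q / Real.log p with hs
  set D : ℝ := ((p : ℝ) - 1) / (q - 1) with hD
  have hDpos : 0 < D := by rw [hD]; apply div_pos <;> linarith
  set K : ℝ := (2 * D) ^ s with hK
  have hKpos : 0 < K := Real.rpow_pos_of_pos (by positivity) _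
  have hpow : ∀ n : ℕ, ((p : ℝ) ^ n) ^ s = (q : ℝ) ^ n := fun n => pow_rpow_s hpar n
  -- counting in the standard spectrum
  have count0 : ∀ (n : ℕ) (h : ℝ) (T : Finset ℤ), 0 < h → (↑T : Set ℤ) ⊆ Lam0 p q →
      (∀ x ∈ T, ∀ y ∈ T, ((x - y : ℤ) : ℝ) < 2 * (h / (p : ℝ) ^ n)) →
      (T.card : ℝ) ≤ K * h ^ s / (q : ℝ) ^ n + 1 := by
    intro n h T hh hT hd
    have hpn : (0 : ℝ) < (p : ℝ) ^ n := by positivity
    have h1 := hB6 p q hpar (h / (p : ℝ) ^ n) T (by positivity) hT hd
    refine h1.trans ?_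
    have h2 := rpow_add_one_le (x := 2 * (h / (p : ℝ) ^ n) * D) (s := s) (by positivity) hs0.le hs1
    refine h2.trans ?_
    have h3 : 2 * (h / (p : ℝ) ^ n) * D = (2 * D) * (h / (p : ℝ) ^ n) := by ring
    rw [h3, Real.mul_rpow (by positivity) (by positivity), Real.div_rpow hh.le hpn.le, hpow,
      mul_div_assoc]
  obtain ⟨N, hN⟩ : ∃ N : ℕ, K / (q : ℝ) ^ N ≤ ε / 4 := by
    obtain ⟨N, hN⟩ := pow_unbounded_of_one_lt (K / (ε / 4)) hq1
    refine ⟨N, ?_⟩
    rw [div_lt_iff₀ (by positivity)] at hN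
    rw [div_le_iff₀ (by positivity)]
    linarith
  set ε' : ℝ := ε / (8 * (q : ℝ) ^ 2) with hε'
  have hε'pos : 0 < ε' := by rw [hε']; positivity
  obtain ⟨C0, hC0⟩ := hB5 p q hpar ε' hε'pos
  set C : ℝ := max C0 0 with hC
  have hCnn : 0 ≤ C := le_max_right _ _
  have hC1 : ∀ (n : ℕ) (T : Finset ℤ), (↑T : Set ℤ) ⊆ LamZ p q →
      (∀ x ∈ T, ∀ y ∈ T, x - y < (p : ℤ) ^ n) → (T.card : ℝ) ≤ ε' * (q : ℝ) ^ n + C := by
    intro n T h1 h2
    exact (hC0 n T h1 h2).trans (by gcongr; exact le_max_left _ _)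
  -- constants
  have hlogp : 0 < Real.log p := Real.log_pos hp1
  set a : ℝ := N * q + 2 + q * C * (Real.log 2 / Real.log p + 1) with ha
  set b : ℝ := q * C / Real.log p with hb
  have hbnn : 0 ≤ b := by rw [hb]; positivity
  have ev1 : ∀ᶠ h : ℝ in atTop, a ≤ ε / 8 * h ^ s := by
    have := (tendsto_rpow_atTop hs0).const_mul_atTop (show 0 < ε / 8 by positivity)
    exact this.eventually_ge_atTop a
  have ev2 : ∀ᶠ h : ℝ in atTop, b * Real.log h ≤ ε / 8 * h ^ s := by
    have h1 := (isLittleO_log_rpow_atTop hs0).bound (show 0 < ε / (8 * (b + 1)) by positivity)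
    filter_upwards [h1, eventually_ge_atTop 1] with h hh hh1
    rw [Real.norm_of_nonneg (Real.log_nonneg hh1),
      Real.norm_of_nonneg (Real.rpow_nonneg (by linarith) _)] at hh
    have h2 : b * Real.log h ≤ b * (ε / (8 * (b + 1)) * h ^ s) := by gcongr
    refine h2.trans ?_
    have h3 : b * (ε / (8 * (b + 1)) * h ^ s) = (b / (b + 1)) * (ε / 8 * h ^ s) := by
      field_simp
    rw [h3]
    have h4 : b / (b + 1) ≤ 1 := by rw [div_le_one (by positivity)]; linarith
    have h5 : 0 ≤ ε / 8 * h ^ s := by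
      have := Real.rpow_nonneg (show 0 ≤ h by linarith) s
      positivity
    calc _ ≤ 1 * (ε / 8 * h ^ s) := by gcongr
      _ = _ := one_mul _
  obtain ⟨h1, hh1⟩ := eventually_atTop.1 (ev1.and (ev2.and (eventually_ge_atTop 1)))
  refine ⟨h1, ?_⟩
  intro h T hh hT hd
  obtain ⟨hA, hBb, hge1⟩ := hh1 h hh
  have hpos : 0 < h := by linarith
  have hspos : 0 < h ^ s := Real.rpow_pos_of_pos hpos _
  obtain ⟨m, hm1, hm2⟩ := exists_nat_pow_near (show (1 : ℝ) ≤ 2 * h by linarith) hp1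
  set m0 : ℕ := m + 1 with hm0
  have hm0p : (p : ℝ) ^ m0 ≤ 2 * h * p := by
    rw [hm0, pow_succ]; gcongr
  have hqm0 : (q : ℝ) ^ m0 ≤ 2 * q * h ^ s := by
    rw [← hpow m0]
    calc ((p : ℝ) ^ m0) ^ s ≤ (2 * h * p) ^ s := Real.rpow_le_rpow (by positivity) hm0p hs0.le
      _ = 2 ^ s * h ^ s * q := by
          rw [Real.mul_rpow (by positivity) (by positivity),
            Real.mul_rpow (by positivity) (by positivity), p_rpow_s hpar]
      _ ≤ 2 * h ^ s * q := by
          gcongr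
          calc (2 : ℝ) ^ s ≤ 2 ^ (1 : ℝ) := Real.rpow_le_rpow_of_exponent_le (by norm_num) hs1
            _ = 2 := Real.rpow_one 2
      _ = _ := by ring
  have hm0le : (m0 : ℝ) ≤ Real.log 2 / Real.log p + 1 + Real.log h / Real.log p := by
    have h3 := Real.log_le_log (by positivity) hm0p
    rw [Real.log_pow, Real.log_mul (by positivity) (by positivity),
      Real.log_mul (by positivity) (by positivity)] at h3
    have h4 : (m0 : ℝ) ≤ (Real.log 2 + Real.log h + Real.log p) / Real.log p := by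
      rw [le_div_iff₀ hlogp]; linarith
    refine h4.trans (le_of_eq ?_)
    field_simp
    ring
  -- the parts
  let FP : ℕ → ℕ → Finset ℤ := fun n j =>
    T.filter fun z => ∃ x ∈ Lam0 p q, z = (p : ℤ) ^ n * j + (p : ℤ) ^ (n + 1) * x
  let FR : Finset ℤ := T.filter fun z => ∃ x ∈ Lam0 p q, z = 0 + (p : ℤ) ^ N * x
  let ZP : ℕ → ℕ → Finset ℤ := fun n j =>
    T.filter fun z => ∃ x ∈ LamZ p q, z = (p : ℤ) ^ n * j + (p : ℤ) ^ (n + 1) * x
  let ZR : Finset ℤ := T.filter fun z => (p : ℤ) ^ m0 ∣ z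
  have hdF : ∀ (T1 : Finset ℤ), T1 ⊆ T → ∀ x ∈ T1, ∀ y ∈ T1, ((x - y : ℤ) : ℝ) < 2 * h :=
    fun T1 hsub x hx y hy => hd x (hsub hx) y (hsub hy)
  have cFP : ∀ n j, ((FP n j).card : ℝ) ≤ K * h ^ s / (q : ℝ) ^ (n + 1) + 1 := by
    intro n j
    obtain ⟨T', c1, c2, c3⟩ := rescale (FP n j) (Lam0 p q) ((p : ℤ) ^ n * j) ((p : ℤ) ^ (n + 1))
      (by positivity) (fun z hz => (mem_filter.1 hz).2) h (hdF _ (filter_subset _ _))
    rw [← c1]
    exact count0 (n + 1) h T' hpos c2 (by push_cast at c3 ⊢; exact c3)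
  have cFR : (FR.card : ℝ) ≤ K * h ^ s / (q : ℝ) ^ N + 1 := by
    obtain ⟨T', c1, c2, c3⟩ := rescale FR (Lam0 p q) 0 ((p : ℤ) ^ N)
      (by positivity) (fun z hz => (mem_filter.1 hz).2) h (hdF _ (filter_subset _ _))
    rw [← c1]
    exact count0 N h T' hpos c2 (by push_cast at c3 ⊢; exact c3)
  have cZP : ∀ n < m0, ∀ j, ((ZP n j).card : ℝ) ≤ ε' * (q : ℝ) ^ (m0 - 1 - n) + C := by
    intro n hn j
    obtain ⟨T', c1, c2, c3⟩ := rescale (ZP n j) (LamZ p q) ((p : ℤ) ^ n * j) ((p : ℤ) ^ (n + 1))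
      (by positivity) (fun z hz => (mem_filter.1 hz).2) h (hdF _ (filter_subset _ _))
    rw [← c1]
    refine hC1 (m0 - 1 - n) T' c2 ?_
    intro x hx y hy
    have c4 := c3 x hx y hy
    have c5 : 2 * (h / (((p : ℤ) ^ (n + 1) : ℤ) : ℝ)) < (p : ℝ) ^ (m0 - 1 - n) := by
      push_cast
      rw [mul_div_assoc', div_lt_iff₀ (by positivity), ← pow_add]
      have : m0 - 1 - n + (n + 1) = m + 1 := by omega
      rw [this]
      exact hm2
    have c6 : ((x - y : ℤ) : ℝ) < (((p : ℤ) ^ (m0 - 1 - n) : ℤ) : ℝ) := by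
      push_cast at c4 c5 ⊢
      linarith
    exact_mod_cast c6
  have cZR : (ZR.card : ℝ) ≤ 1 := by
    have : ZR.card ≤ 1 := by
      rw [card_le_one]
      intro x hx y hy
      obtain ⟨hx1, hx2⟩ := mem_filter.1 hx
      obtain ⟨hy1, hy2⟩ := mem_filter.1 hy
      have d1 := hd x hx1 y hy1
      have d2 := hd y hy1 x hx1
      have d3 : (p : ℤ) ^ m0 ∣ x - y := dvd_sub hx2 hy2
      have d4 : |x - y| < (p : ℤ) ^ m0 := by
        have e1 : ((x - y : ℤ) : ℝ) < (((p : ℤ) ^ m0 : ℤ) : ℝ) := by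
          push_cast at d1 ⊢; rw [hm0]; linarith
        have e2 : ((y - x : ℤ) : ℝ) < (((p : ℤ) ^ m0 : ℤ) : ℝ) := by
          push_cast at d2 ⊢; rw [hm0]; linarith
        have e3 : x - y < (p : ℤ) ^ m0 := by exact_mod_cast e1
        have e4 : y - x < (p : ℤ) ^ m0 := by exact_mod_cast e2
        rw [abs_lt]
        constructor <;> linarith
      have d5 := Int.eq_zero_of_abs_lt_dvd d3 d4
      linarith
    exact_mod_cast this
  have hcover : T ⊆ (((range N).biUnion fun n => (Icc 1 (g n)).biUnion fun j => FP n j) ∪ FR) ∪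
      (((range m0).biUnion fun n => (range q).biUnion fun j => ZP n j) ∪ ZR) := by
    intro z hz
    have hzM : z ∈ MixG p q g := hT (by exact_mod_cast hz)
    rcases hzM with h0 | ⟨n, j, hj1, hj2, x, hx, he⟩
    · apply mem_union_right
      apply mem_union_right
      exact mem_filter.2 ⟨hz, by rw [h0]; exact dvd_zero _⟩
    · simp only at hx
      have he' : z = (p : ℤ) ^ n * j + (p : ℤ) ^ (n + 1) * x := by rw [he, pow_succ]; ring
      by_cases hjg : j ≤ g n
      · rw [if_pos hjg] at hx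
        apply mem_union_left
        by_cases hnN : n < N
        · apply mem_union_left
          rw [mem_biUnion]
          refine ⟨n, mem_range.2 hnN, ?_⟩
          rw [mem_biUnion]
          exact ⟨j, mem_Icc.2 ⟨hj1, hjg⟩, mem_filter.2 ⟨hz, x, hx, he'⟩⟩
        · apply mem_union_right
          obtain ⟨W, hW⟩ := hx
          refine mem_filter.2 ⟨hz, (phi p q (q ^ (n - N) * (q * W + j)) : ℤ), ⟨_, rfl⟩, ?_⟩
          rw [phi_pow_mul hpar, phi_step p hq2 W j hj2, he', hW]
          have e1 : (p : ℤ) ^ n = (p : ℤ) ^ N * (p : ℤ) ^ (n - N) := by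
            rw [← pow_add]; congr 1; omega
          rw [pow_succ, e1]
          push_cast
          ring
      · rw [if_neg hjg] at hx
        apply mem_union_right
        by_cases hnm : n < m0
        · apply mem_union_left
          rw [mem_biUnion]
          refine ⟨n, mem_range.2 hnm, ?_⟩
          rw [mem_biUnion]
          exact ⟨j, mem_range.2 hj2, mem_filter.2 ⟨hz, x, hx, he'⟩⟩
        · apply mem_union_right
          refine mem_filter.2 ⟨hz, ?_⟩
          rw [he]
          exact Dvd.dvd.mul_right (pow_dvd_pow _ (by omega)) _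
  have hcard : (T.card : ℝ) ≤
      (∑ n ∈ range N, ∑ j ∈ Icc 1 (g n), ((FP n j).card : ℝ) + FR.card) +
      (∑ n ∈ range m0, ∑ j ∈ range q, ((ZP n j).card : ℝ) + ZR.card) := by
    have e1 : T.card ≤ (∑ n ∈ range N, ∑ j ∈ Icc 1 (g n), (FP n j).card + FR.card) +
        (∑ n ∈ range m0, ∑ j ∈ range q, (ZP n j).card + ZR.card) := by
      refine (card_le_card hcover).trans ((card_union_le _ _).trans ?_)
      gcongr
      · refine (card_union_le _ _).trans ?_
        gcongr
        refine card_biUnion_le.trans ?_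
        exact sum_le_sum fun n _ => card_biUnion_le
      · refine (card_union_le _ _).trans ?_
        gcongr
        refine card_biUnion_le.trans ?_
        exact sum_le_sum fun n _ => card_biUnion_le
    exact_mod_cast e1
  have s1 : ∑ n ∈ range N, ∑ j ∈ Icc 1 (g n), ((FP n j).card : ℝ) ≤ γ * K * h ^ s + N * q := by
    calc _ ≤ ∑ n ∈ range N, (K * h ^ s * ((g n : ℝ) / (q : ℝ) ^ (n + 1)) + q) := by
          refine sum_le_sum fun n _ => ?_
          calc ∑ j ∈ Icc 1 (g n), ((FP n j).card : ℝ)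
              ≤ ∑ j ∈ Icc 1 (g n), (K * h ^ s / (q : ℝ) ^ (n + 1) + 1) :=
                sum_le_sum fun j _ => cFP n j
            _ = g n * (K * h ^ s / (q : ℝ) ^ (n + 1) + 1) := by
                rw [sum_const, Nat.card_Icc, nsmul_eq_mul, Nat.add_sub_cancel]
            _ = K * h ^ s * ((g n : ℝ) / (q : ℝ) ^ (n + 1)) + g n := by ring
            _ ≤ _ := by
                have : (g n : ℝ) ≤ q := by
                  have := hg n
                  have : g n ≤ q := by omega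
                  exact_mod_cast this
                linarith
      _ = K * h ^ s * (∑ n ∈ range N, (g n : ℝ) / (q : ℝ) ^ (n + 1)) + N * q := by
          rw [sum_add_distrib, ← mul_sum, sum_const, card_range, nsmul_eq_mul]
      _ ≤ K * h ^ s * γ + N * q := by
          gcongr
          exact sum_le_hasSum _ (fun n _ => by positivity) hγ
      _ = _ := by ring
  have s2 : ∑ n ∈ range m0, ∑ j ∈ range q, ((ZP n j).card : ℝ)
      ≤ q * (ε' * (q : ℝ) ^ m0) + m0 * (q * C) := by
    calc _ ≤ ∑ n ∈ range m0, (q * (ε' * (q : ℝ) ^ (m0 - 1 - n)) + q * C) := by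
          refine sum_le_sum fun n hn => ?_
          calc ∑ j ∈ range q, ((ZP n j).card : ℝ)
              ≤ ∑ j ∈ range q, (ε' * (q : ℝ) ^ (m0 - 1 - n) + C) :=
                sum_le_sum fun j _ => cZP n (mem_range.1 hn) j
            _ = q * (ε' * (q : ℝ) ^ (m0 - 1 - n)) + q * C := by
                rw [sum_const, card_range, nsmul_eq_mul]; ring
      _ = q * (ε' * ∑ n ∈ range m0, (q : ℝ) ^ (m0 - 1 - n)) + m0 * (q * C) := by
          rw [sum_add_distrib, ← mul_sum, ← mul_sum, sum_const, card_range, nsmul_eq_mul]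
      _ = q * (ε' * ∑ n ∈ range m0, (q : ℝ) ^ n) + m0 * (q * C) := by
          rw [sum_range_reflect (fun n => (q : ℝ) ^ n) m0]
      _ ≤ _ := by
          gcongr
          exact sum_pow_le hq2 m0
  have s3 : q * (ε' * (q : ℝ) ^ m0) ≤ ε / 4 * h ^ s := by
    calc q * (ε' * (q : ℝ) ^ m0) ≤ q * (ε' * (2 * q * h ^ s)) := by gcongr
      _ = ε / 4 * h ^ s := by
          rw [hε']
          field_simp
          norm_num
  have s4 : (m0 : ℝ) * (q * C) + N * q + 2 ≤ ε / 4 * h ^ s := by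
    have t1 : (m0 : ℝ) * (q * C) ≤
        (Real.log 2 / Real.log p + 1 + Real.log h / Real.log p) * (q * C) := by gcongr
    have t2 : (Real.log 2 / Real.log p + 1 + Real.log h / Real.log p) * (q * C)
        + N * q + 2 = a + b * Real.log h := by
      rw [ha, hb]; ring
    linarith
  have s5 : K * h ^ s / (q : ℝ) ^ N ≤ ε / 4 * h ^ s := by
    have : K * h ^ s / (q : ℝ) ^ N = K / (q : ℝ) ^ N * h ^ s := by ring
    rw [this]
    gcongr
  have hfin : (T.card : ℝ) ≤ (γ * K + ε) * h ^ s := by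
    have u0 : 0 < ε * h ^ s := by positivity
    have u1 : (FR.card : ℝ) ≤ ε / 4 * h ^ s + 1 := by linarith only [cFR, s5]
    have u2 : ∑ n ∈ range m0, ∑ j ∈ range q, ((ZP n j).card : ℝ)
        ≤ ε / 4 * h ^ s + m0 * (q * C) := by linarith only [s2, s3]
    have t := hcard.trans (add_le_add (add_le_add s1 u1) (add_le_add u2 cZR))
    have e : (γ * K + ε) * h ^ s = γ * K * h ^ s + ε * h ^ s := by ring
    rw [e]
    linarith only [t, s4, u0]
  exact hfin

end Pool.Agent.R97.BD
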