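import Pool.Agent.R97.BD.Phi

/-! MP_5269d5_an: part B8, lower count for the mixture (helper68). -/

open Finset Filter Topology

namespace Pool.Agent.R97.BD

theorem phi_pow_mul {p q : ℕ} (h : Par p q) (m V : ℕ) :
    phi p q (q ^ m * V) = p ^ m * phi p q V := by
  have hq := h.q2
  induction m with
  | zero => simp
  | succ m ih =>
    have e : q ^ (m + 1) * V = q * (q ^ m * V) + 0 := by rw [pow_succ]; ring
    rw [e, phi_step p hq (q ^ m * V) 0 (by omega), ih, pow_succ]
    ring

theorem phi_upper {p q : ℕ} (h : Par p q) (b : ℕ) : ∀ V, V < q ^ b →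
    phi p q V * (p - 1) ≤ (q - 1) * (p ^ b - 1) := by
  have hq := h.q2
  have hp := h.pq
  obtain ⟨p', rfl⟩ : ∃ p', p = p' + 1 := ⟨p - 1, by omega⟩
  obtain ⟨q', rfl⟩ : ∃ q', q = q' + 1 := ⟨q - 1, by omega⟩
  simp only [Nat.add_sub_cancel]
  induction b with
  | zero =>
    intro V hV
    have : V = 0 := by simpa using hV
    subst this
    simp [phi_zero]
  | succ b ih =>
    intro V hV
    obtain ⟨V', a, ha, rfl, _⟩ := exists_step hq V
    rw [phi_step (p' + 1) hq V' a ha]
    have h1 : V' < (q' + 1) ^ b := by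
      rw [pow_succ, mul_comm ((q' + 1) ^ b)] at hV
      by_contra hcon
      push Not at hcon
      have := Nat.mul_le_mul_left (q' + 1) hcon
      omega
    have h2 := ih V' h1
    have hpow : 1 ≤ (p' + 1) ^ b := Nat.one_le_pow _ _ (by omega)
    obtain ⟨X, hX⟩ : ∃ X, (p' + 1) ^ b = X + 1 := ⟨(p' + 1) ^ b - 1, by omega⟩
    rw [hX, Nat.add_sub_cancel] at h2
    rw [pow_succ, hX]
    have e1 : (X + 1) * (p' + 1) - 1 = X * (p' + 1) + p' := by
      have : (X + 1) * (p' + 1) = X * (p' + 1) + p' + 1 := by ring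
      omega
    rw [e1]
    have ha' : a ≤ q' := by omega
    calc (a + (p' + 1) * phi (p' + 1) (q' + 1) V') * p'
        = a * p' + (p' + 1) * (phi (p' + 1) (q' + 1) V' * p') := by ring
      _ ≤ q' * p' + (p' + 1) * (q' * X) := by gcongr
      _ = q' * (X * (p' + 1) + p') := by ring

theorem b8 : S_B8 := by
  intro p q hpar g hg k
  have hq := hpar.q2
  have hp := hpar.pq
  -- index set
  set I : Finset (Σ _ : ℕ, ℕ × ℕ) := (range k).sigma
    (fun m => Icc 1 (g m) ×ˢ range (q ^ (k - m - 1))) with hI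
  set F : (Σ _ : ℕ, ℕ × ℕ) → ℕ := fun x => q ^ x.1 * (x.2.1 + q * x.2.2) with hF
  have hmem : ∀ x ∈ I, x.1 < k ∧ 1 ≤ x.2.1 ∧ x.2.1 ≤ g x.1 ∧ x.2.2 < q ^ (k - x.1 - 1) := by
    intro x hx
    rw [hI, mem_sigma, mem_product, mem_Icc, mem_range, mem_range] at hx
    exact ⟨hx.1, hx.2.1.1, hx.2.1.2, hx.2.2⟩
  have hinj : Set.InjOn F (I : Set (Σ _ : ℕ, ℕ × ℕ)) := by
    have key : ∀ m j W m' j' W' : ℕ, 1 ≤ j → j < q → 1 ≤ j' → j' < q → m ≤ m' →
        q ^ m * (j + q * W) = q ^ m' * (j' + q * W') → m = m' ∧ j = j' ∧ W = W' := by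
      intro m j W m' j' W' h1 h2 h3 h4 hmm he
      obtain ⟨r, rfl⟩ := Nat.exists_eq_add_of_le hmm
      rw [pow_add, mul_assoc] at he
      have he' := Nat.eq_of_mul_eq_mul_left (Nat.pow_pos (by omega)) he
      rcases Nat.eq_zero_or_pos r with h0 | h0
      · subst h0
        rw [pow_zero, one_mul] at he'
        have e1 : j = j' := by
          have a1 : (j + q * W) % q = j := by rw [Nat.add_mul_mod_self_left, Nat.mod_eq_of_lt h2]
          have a2 : (j' + q * W') % q = j' := by
            rw [Nat.add_mul_mod_self_left, Nat.mod_eq_of_lt h4]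
          rw [← a1, he', a2]
        subst e1
        have e2 : q * W = q * W' := by omega
        exact ⟨by omega, rfl, Nat.eq_of_mul_eq_mul_left (by omega) e2⟩
      · exfalso
        obtain ⟨r', rfl⟩ : ∃ r', r = r' + 1 := ⟨r - 1, by omega⟩
        have a1 : (j + q * W) % q = j := by rw [Nat.add_mul_mod_self_left, Nat.mod_eq_of_lt h2]
        have a2 : (q ^ (r' + 1) * (j' + q * W')) % q = 0 := by
          rw [pow_succ, mul_comm (q ^ r') q, mul_assoc, Nat.mul_mod_right]
        rw [he', a2] at a1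
        omega
    rintro ⟨m, j, W⟩ hx ⟨m', j', W'⟩ hy hxy
    have hx' := hmem _ (by exact_mod_cast hx)
    have hy' := hmem _ (by exact_mod_cast hy)
    simp only at hx' hy'
    simp only [hF] at hxy
    have g1 := hg m
    have g2 := hg m'
    rcases le_total m m' with hmm | hmm
    · obtain ⟨rfl, rfl, rfl⟩ := key m j W m' j' W' hx'.2.1 (by omega) hy'.2.1 (by omega) hmm hxy
      rfl
    · obtain ⟨rfl, rfl, rfl⟩ := key m' j' W' m j W hy'.2.1 (by omega) hx'.2.1 (by omega) hmm
        hxy.symm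
      rfl
  have hval : ∀ x ∈ I, (phi p q (F x) : ℤ) = (p : ℤ) ^ x.1 * (x.2.1 + p * (phi p q x.2.2 : ℤ)) := by
    intro x hx
    have hx' := hmem x hx
    have g1 := hg x.1
    simp only [hF]
    rw [phi_pow_mul hpar, add_comm x.2.1, phi_step p hq x.2.2 x.2.1 (by omega)]
    push_cast
    ring
  have hlt : ∀ x ∈ I, F x < q ^ k := by
    intro x hx
    have hx' := hmem x hx
    have g1 := hg x.1
    simp only [hF]
    have e1 : x.2.1 + q * x.2.2 < q ^ (k - x.1 - 1) * q := by
      have : q * (x.2.2 + 1) ≤ q * q ^ (k - x.1 - 1) := Nat.mul_le_mul_left q hx'.2.2.2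
      rw [mul_comm (q ^ (k - x.1 - 1)) q]
      have e : q * (x.2.2 + 1) = q * x.2.2 + q := by ring
      omega
    have e2 : q ^ k = q ^ x.1 * (q ^ (k - x.1 - 1) * q) := by
      rw [← pow_succ, ← pow_add]
      congr 1
      omega
    rw [e2]
    exact Nat.mul_lt_mul_of_pos_left e1 (Nat.pow_pos (by omega))
  refine ⟨I.image (fun x => (phi p q (F x) : ℤ)), ?_, ?_, ?_⟩
  · intro z hz
    obtain ⟨x, hx, rfl⟩ := mem_image.1 (by exact_mod_cast hz)
    have hx' := hmem x hx
    have g1 := hg x.1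
    right
    refine ⟨x.1, x.2.1, hx'.2.1, by omega, (phi p q x.2.2 : ℤ), ?_, hval x hx⟩
    simp only
    rw [if_pos hx'.2.2.1]
    exact ⟨x.2.2, rfl⟩
  · intro z hz
    obtain ⟨x, hx, rfl⟩ := mem_image.1 hz
    refine ⟨Int.natCast_nonneg _, ?_⟩
    have h1 := phi_upper hpar k (F x) (hlt x hx)
    have hp1 : 1 ≤ p := by omega
    have hq1 : 1 ≤ q := by omega
    have hpk : 1 ≤ p ^ k := Nat.one_le_pow _ _ (by omega)
    have h2 : ((phi p q (F x) * (p - 1) : ℕ) : ℝ) ≤ (((q - 1) * (p ^ k - 1) : ℕ) : ℝ) := by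
      exact_mod_cast h1
    rw [Nat.cast_mul, Nat.cast_mul, Nat.cast_sub hp1, Nat.cast_sub hq1, Nat.cast_sub hpk] at h2
    push_cast at h2
    have hqr : (0 : ℝ) < (q : ℝ) - 1 := by
      have : (2 : ℝ) ≤ q := by exact_mod_cast hq
      linarith
    rw [mul_div_assoc', div_le_iff₀ hqr]
    push_cast
    linarith
  · rw [card_image_of_injOn]
    · rw [hI, card_sigma]
      push_cast
      rw [mul_sum]
      refine sum_le_sum fun m hm => ?_
      rw [mem_range] at hm
      rw [card_product, Nat.card_Icc, card_range]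
      push_cast
      have hq0 : (0 : ℝ) < q := by
        have : 0 < q := by omega
        exact_mod_cast this
      have e : (q : ℝ) ^ k = (q : ℝ) ^ (k - m - 1) * (q : ℝ) ^ (m + 1) := by
        rw [← pow_add]; congr 1; omega
      rw [e]
      have : (q : ℝ) ^ (m + 1) ≠ 0 := by positivity
      apply le_of_eq
      field_simp
    · intro x hx y hy hxy
      simp only at hxy
      have : phi p q (F x) = phi p q (F y) := by exact_mod_cast hxy
      exact hinj hx hy (phi_inj hpar this)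

end Pool.Agent.R97.BD
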