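import Pool.Agent.R97.BD.Defs

/-! MP_5269d5_an: products of masks and the completeness lemma. -/

open Finset Filter Topology

namespace Pool.Agent.R97.BD

/-- `E_n(t) = prod_{i<n} A(t / p^i)` -/
noncomputable def EE (A : ℝ → ℝ) (p n : ℕ) (t : ℝ) : ℝ := ∏ i ∈ range n, A (t / (p : ℝ) ^ i)

section
variable {p q : ℕ} {A M : ℝ → ℝ}

theorem Ax.p_pos (h : Ax p q A M) : (0 : ℝ) < p := by
  have := h.par.q2
  have := h.par.pq
  have : 0 < p := by omega
  exact_mod_cast this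

theorem Ax.p4 (h : Ax p q A M) : (4 : ℝ) ≤ p := by
  have := h.par.q2
  have := h.par.pq
  have : 4 ≤ p := by omega
  exact_mod_cast this

theorem Ax.A_le_one (h : Ax p q A M) (t : ℝ) : A t ≤ 1 := by
  have h1 := h.A_sum t
  have h2 : A (t + (0 : ℕ)) ≤ ∑ j ∈ range q, A (t + j) :=
    Finset.single_le_sum (f := fun j : ℕ => A (t + j)) (fun j _ => h.A_nonneg _)
      (mem_range.2 (by have := h.par.q2; omega))
  rw [h1] at h2
  simpa using h2

theorem EE_nonneg (h : Ax p q A M) (n : ℕ) (t : ℝ) : 0 ≤ EE A p n t :=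
  Finset.prod_nonneg fun _ _ => h.A_nonneg _

theorem EE_le_one (h : Ax p q A M) (n : ℕ) (t : ℝ) : EE A p n t ≤ 1 :=
  Finset.prod_le_one (fun _ _ => h.A_nonneg _) fun _ _ => h.A_le_one _

theorem EE_zero (t : ℝ) : EE A p 0 t = 1 := by simp [EE]

/-- first factor -/
theorem EE_succ (h : Ax p q A M) (n : ℕ) (t : ℝ) : EE A p (n + 1) t = A t * EE A p n (t / p) := by
  unfold EE
  rw [Finset.prod_range_succ', mul_comm]
  congr 1
  · simp
  · refine Finset.prod_congr rfl fun i _ => ?_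
    rw [div_div, pow_succ, mul_comm ((p : ℝ) ^ i)]

theorem EE_add (h : Ax p q A M) (m n : ℕ) (t : ℝ) :
    EE A p (m + n) t = EE A p m t * EE A p n (t / (p : ℝ) ^ m) := by
  unfold EE
  rw [Finset.prod_range_add]
  congr 1
  refine Finset.prod_congr rfl fun i _ => ?_
  rw [div_div, pow_add]

theorem M_EE (h : Ax p q A M) (n : ℕ) (t : ℝ) : M t = EE A p n t * M (t / (p : ℝ) ^ n) := by
  induction n generalizing t with
  | zero => simp [EE]
  | succ n ih =>
    rw [EE_succ h, h.M_rec t, ih (t / p), div_div, pow_succ, mul_comm ((p : ℝ) ^ n)]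
    ring

/-- periodicity: integers divisible by `q` -/
theorem A_add_mul (h : Ax p q A M) (t : ℝ) (n : ℤ) : A (t + n * q) = A t := by
  have h1 : ∀ (t : ℝ) (n : ℕ), A (t + n * q) = A t := by
    intro t n
    induction n with
    | zero => simp
    | succ n ih =>
      have : t + ((n + 1 : ℕ) : ℝ) * q = (t + n * q) + q := by push_cast; ring
      rw [this, h.A_per, ih]
  rcases le_total 0 n with hn | hn
  · lift n to ℕ using hn
    exact_mod_cast h1 t n
  · obtain ⟨m, rfl⟩ : ∃ m : ℕ, n = -m := ⟨n.natAbs, by omega⟩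
    have h2 := h1 (t + ((-(m : ℤ) : ℤ) : ℝ) * q) m
    rw [← h2]
    congr 1
    push_cast
    ring

theorem A_add_dvd (h : Ax p q A M) (t : ℝ) {z : ℤ} (hz : (q : ℤ) ∣ z) : A (t + z) = A t := by
  obtain ⟨n, rfl⟩ := hz
  have := A_add_mul h t n
  rw [← this]
  congr 1
  push_cast
  ring

/-- `E_n` is invariant under adding integer multiples of `p^n` -/
theorem EE_per (h : Ax p q A M) (n : ℕ) (t : ℝ) (z : ℤ) :
    EE A p n (t + (p : ℝ) ^ n * z) = EE A p n t := by
  unfold EE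
  refine Finset.prod_congr rfl fun i hi => ?_
  rw [mem_range] at hi
  have hp := h.p_pos
  obtain ⟨m, rfl⟩ : ∃ m, n = i + m + 1 := ⟨n - i - 1, by omega⟩
  have e : (t + (p : ℝ) ^ (i + m + 1) * z) / (p : ℝ) ^ i = t / (p : ℝ) ^ i +
      (((p : ℤ) * ((p : ℤ) ^ m * z) : ℤ) : ℝ) := by
    rw [add_div]
    congr 1
    rw [pow_succ, pow_add]
    push_cast
    field_simp
  rw [e]
  refine A_add_dvd h _ ?_
  exact Dvd.dvd.mul_right (by exact_mod_cast h.par.dvd) _

theorem tendsto_div_pow (h : Ax p q A M) (t : ℝ) {l : ℕ → ℕ} (hl : Tendsto l atTop atTop) :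
    Tendsto (fun k => t / (p : ℝ) ^ l k) atTop (𝓝 0) := by
  have h1 : Tendsto (fun n : ℕ => (p : ℝ) ^ n) atTop atTop :=
    tendsto_pow_atTop_atTop_of_one_lt (by linarith [h.p4])
  exact (h1.comp hl).const_div_atTop t

theorem tendsto_M (h : Ax p q A M) (t : ℝ) {l : ℕ → ℕ} (hl : Tendsto l atTop atTop) :
    Tendsto (fun k => M (t / (p : ℝ) ^ l k)) atTop (𝓝 1) := by
  have := (h.M_cont.tendsto 0).comp (tendsto_div_pow h t hl)
  rwa [h.M_zero] at this

theorem tendsto_EE (h : Ax p q A M) (t : ℝ) {l : ℕ → ℕ} (hl : Tendsto l atTop atTop) :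
    Tendsto (fun k => EE A p (l k) t) atTop (𝓝 (M t)) := by
  have h1 := tendsto_M h t hl
  have h2 := (tendsto_const_nhds (x := M t)).div h1 one_ne_zero
  rw [div_one] at h2
  refine h2.congr' ?_
  filter_upwards [h1.eventually_ne one_ne_zero] with k hk
  rw [Pi.div_apply, M_EE h (l k) t, mul_div_cancel_right₀ _ hk]

/-- the completeness lemma -/
theorem comp (h : Ax p q A M) (S : ℕ → Finset ℕ) (hS : Monotone S) {l : ℕ → ℕ}
    (hl : Tendsto l atTop atTop)
    (hsum : ∀ (k : ℕ) (ξ : ℝ), ∑ x ∈ S k, EE A p (l k) (ξ + x) = 1) {c : ℝ} (hc : 0 < c)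
    (hlow : ∀ ξ : ℝ, ∃ K0 : ℕ, ∀ k, K0 ≤ k → ∀ x ∈ S k, c ≤ M ((ξ + x) / (p : ℝ) ^ l k)) :
    Full M {z : ℤ | ∃ k, ∃ x ∈ S k, z = (x : ℤ)} := by
  intro ξ δ hδ
  set T : ℕ → ℝ := fun k => ∑ x ∈ S k, M (ξ + x) with hT
  have hmono : Monotone T := fun a b hab =>
    Finset.sum_le_sum_of_subset_of_nonneg (hS hab) fun _ _ _ => h.M_nonneg _
  have hT1 : ∀ k, T k ≤ 1 := by
    intro k
    rw [← hsum k ξ]
    refine Finset.sum_le_sum fun x _ => ?_
    rw [M_EE h (l k) (ξ + x)]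
    exact mul_le_of_le_one_right (EE_nonneg h _ _) (h.M_le_one _)
  have hbdd : BddAbove (Set.range T) := ⟨1, by rintro _ ⟨k, rfl⟩; exact hT1 k⟩
  set L := ⨆ k, T k with hL
  have htend : Tendsto T atTop (𝓝 L) := tendsto_atTop_ciSup hmono hbdd
  obtain ⟨K0, hK0⟩ := hlow ξ
  have h1 : ∀ k' k, k' ≤ k → K0 ≤ k →
      1 ≤ ∑ x ∈ S k', EE A p (l k) (ξ + x) + (T k - T k') / c := by
    intro k' k hk hk0
    have e1 : ∑ x ∈ S k, EE A p (l k) (ξ + x) = ∑ x ∈ S k', EE A p (l k) (ξ + x) +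
        ∑ x ∈ S k \ S k', EE A p (l k) (ξ + x) := by
      rw [add_comm, Finset.sum_sdiff (hS hk)]
    have e2 : T k - T k' = ∑ x ∈ S k \ S k', M (ξ + x) := by
      simp only [hT]
      rw [← Finset.sum_sdiff (hS hk)]
      ring
    have e3 : ∑ x ∈ S k \ S k', EE A p (l k) (ξ + x) ≤ (T k - T k') / c := by
      rw [le_div_iff₀ hc, e2, Finset.sum_mul]
      refine Finset.sum_le_sum fun x hx => ?_
      rw [M_EE h (l k) (ξ + x)]
      exact mul_le_mul_of_nonneg_left (hK0 k hk0 x (mem_sdiff.1 hx).1) (EE_nonneg h _ _)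
    have e4 := hsum k ξ
    linarith
  have h2 : ∀ k', 1 ≤ T k' + (L - T k') / c := by
    intro k'
    have t1 : Tendsto (fun k => ∑ x ∈ S k', EE A p (l k) (ξ + x) + (T k - T k') / c) atTop
        (𝓝 (T k' + (L - T k') / c)) := by
      refine Tendsto.add ?_ ?_
      · exact tendsto_finset_sum _ fun x _ => tendsto_EE h (ξ + x) hl
      · exact (htend.sub_const _).div_const _
    refine ge_of_tendsto t1 ?_
    filter_upwards [eventually_ge_atTop k', eventually_ge_atTop K0] with k hk hk'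
    exact h1 k' k hk hk'
  have h3 : 1 ≤ L := by
    have t1 : Tendsto (fun k' => T k' + (L - T k') / c) atTop (𝓝 (L + (L - L) / c)) :=
      htend.add ((htend.const_sub _).div_const _)
    rw [sub_self, zero_div, add_zero] at t1
    exact ge_of_tendsto' t1 h2
  obtain ⟨k, hk⟩ := (htend.eventually_const_lt (show 1 - δ < L by linarith)).exists
  refine ⟨(S k).map ⟨fun x : ℕ => (x : ℤ), Nat.cast_injective⟩, ?_, ?_⟩
  · intro z hz
    rw [mem_coe, Finset.mem_map] at hz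
    obtain ⟨x, hx, rfl⟩ := hz
    exact ⟨k, x, hx, rfl⟩
  · rw [Finset.sum_map]
    refine hk.le.trans (le_of_eq ?_)
    simp only [hT]
    refine Finset.sum_congr rfl fun x _ => ?_
    simp

end

end Pool.Agent.R97.BD
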