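import Pool.Agent.R97.BD.Phi

/-! MP_5269d5_an: mixtures. -/

open Finset Filter Topology

namespace Pool.Agent.R97.BD

section
variable {p q : ℕ} {A M : ℝ → ℝ}

/-- shifted mixture -/
def MixN (p q : ℕ) (Γ : ℕ → ℕ → Set ℤ) (n : ℕ) : Set ℤ :=
  Mix p q (fun m j => Γ (n + m) j)

theorem zn_of_step (h : Par p q) {j j' : ℤ} (x y : ℤ) (hne : ¬ (q : ℤ) ∣ j - j') (n : ℕ) :
    Zn p q ((p : ℤ) ^ n * (j + p * x) - (p : ℤ) ^ n * (j' + p * y)) := by
  refine ⟨n, (j - j') + p * (x - y), ?_, by ring⟩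
  intro hd
  exact hne ((Int.dvd_add_left (Dvd.dvd.mul_right (by exact_mod_cast h.dvd) _)).1 hd)

theorem not_dvd_of_lt {j : ℕ} (h1 : 1 ≤ j) (h2 : j < q) : ¬ (q : ℤ) ∣ j := by
  intro h
  have := Int.le_of_dvd (by exact_mod_cast h1) h
  omega

theorem good_mix (h : Par p q) (Γ : ℕ → ℕ → Set ℤ) (hΓ : ∀ n j, Good p q (Γ n j)) :
    Good p q (Mix p q Γ) := by
  have neg : ∀ z : ℤ, Zn p q z → Zn p q (-z) := by
    rintro z ⟨k, u, hu, rfl⟩
    exact ⟨k, -u, by rwa [dvd_neg], by ring⟩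
  have hz : ∀ (n j : ℕ) (γ : ℤ), 1 ≤ j → j < q → Zn p q ((p : ℤ) ^ n * (j + p * γ)) := by
    intro n j γ h1 h2
    refine ⟨n, j + p * γ, ?_, rfl⟩
    intro hd
    exact not_dvd_of_lt h1 h2
      ((Int.dvd_add_left (Dvd.dvd.mul_right (by exact_mod_cast h.dvd) _)).1 hd)
  have hlt : ∀ (n m j j' : ℕ) (γ γ' : ℤ), n < m → 1 ≤ j → j < q →
      Zn p q ((p : ℤ) ^ n * (j + p * γ) - (p : ℤ) ^ m * (j' + p * γ')) := by
    intro n m j j' γ γ' hnm h1 h2
    obtain ⟨k, rfl⟩ : ∃ k, m = n + k + 1 := ⟨m - n - 1, by omega⟩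
    have e : (p : ℤ) ^ n * (j + p * γ) - (p : ℤ) ^ (n + k + 1) * (j' + p * γ') =
        (p : ℤ) ^ n * (j + p * (γ - (p : ℤ) ^ k * (j' + p * γ'))) := by
      rw [pow_succ, pow_add]
      ring
    rw [e]
    exact hz n j _ h1 h2
  rintro x (rfl | ⟨n, j, hj1, hj2, γ, hγ, rfl⟩) y (rfl | ⟨n', j', hj1', hj2', γ', hγ', rfl⟩) hne
  · exact absurd rfl hne
  · rw [zero_sub]
    exact neg _ (hz _ _ _ hj1' hj2')
  · rw [sub_zero]
    exact hz _ _ _ hj1 hj2
  · rcases lt_trichotomy n n' with hn | hn | hn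
    · exact hlt _ _ _ _ _ _ hn hj1 hj2
    · subst hn
      by_cases hjj : j = j'
      · subst hjj
        have hγne : γ ≠ γ' := fun e => hne (by rw [e])
        obtain ⟨k, u, hu, e⟩ := hΓ n j γ hγ γ' hγ' hγne
        refine ⟨n + 1 + k, u, hu, ?_⟩
        have e2 : (p : ℤ) ^ n * (j + p * γ) - (p : ℤ) ^ n * (j + p * γ') =
            (p : ℤ) ^ (n + 1) * (γ - γ') := by ring
        rw [e2, e]
        ring
      · apply zn_of_step h
        intro hd
        have h3 : |(j : ℤ) - j'| < q := by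
          rw [abs_lt]; constructor <;> omega
        have h4 := Int.eq_zero_of_abs_lt_dvd hd h3
        omega
    · have := neg _ (hlt _ _ _ j γ' γ hn hj1' hj2')
      rwa [neg_sub] at this

/-- the union lemma -/
theorem sum_union (h : Ax p q A M) (T : ℕ → Finset ℤ) (ξ : ℝ) :
    ∃ S : Finset ℤ, (∀ z, z ∈ S ↔ ∃ j < q, ∃ x ∈ T j, z = (j : ℤ) + p * x) ∧
      ∑ z ∈ S, M (ξ + z) = ∑ j ∈ range q, A (ξ + j) * ∑ x ∈ T j, M ((ξ + j) / p + x) := by
  classical
  have hp := h.p_pos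
  have hpz : (p : ℤ) ≠ 0 := by exact_mod_cast hp.ne'
  refine ⟨(range q).biUnion fun j => (T j).image fun x => (j : ℤ) + p * x, ?_, ?_⟩
  · intro z
    simp only [mem_biUnion, mem_range, mem_image]
    constructor
    · rintro ⟨j, hj, x, hx, rfl⟩
      exact ⟨j, hj, x, hx, rfl⟩
    · rintro ⟨j, hj, x, hx, rfl⟩
      exact ⟨j, hj, x, hx, rfl⟩
  · rw [Finset.sum_biUnion]
    · refine Finset.sum_congr rfl fun j _ => ?_
      rw [Finset.sum_image, Finset.mul_sum]
      · refine Finset.sum_congr rfl fun x _ => ?_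
        rw [h.M_rec]
        congr 1
        · have e4 : ξ + (((j : ℤ) + p * x : ℤ) : ℝ) = (ξ + j) +
              (((p : ℤ) * x : ℤ) : ℝ) := by push_cast; ring
          rw [e4]
          exact A_add_dvd h _ (Dvd.dvd.mul_right (by exact_mod_cast h.par.dvd) _)
        · congr 1
          push_cast
          field_simp
          ring
      · intro x _ y _ hxy
        have : (p : ℤ) * x = p * y := by linarith
        exact mul_left_cancel₀ hpz this
    · intro j hj j' hj' hne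
      rw [mem_coe, mem_range] at hj hj'
      rw [Function.onFun, Finset.disjoint_left]
      intro z hz hz'
      obtain ⟨x, _, rfl⟩ := mem_image.1 hz
      obtain ⟨y, _, e⟩ := mem_image.1 hz'
      apply hne
      have hd : (q : ℤ) ∣ (j : ℤ) - j' := by
        have : (j : ℤ) - j' = p * (y - x) := by linarith
        rw [this]
        exact Dvd.dvd.mul_right (by exact_mod_cast h.par.dvd) _
      have h3 : |(j : ℤ) - j'| < q := by
        rw [abs_lt]; constructor <;> omega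
      have h4 := Int.eq_zero_of_abs_lt_dvd hd h3
      omega

theorem full_aux (h : Ax p q A M) (Γ : ℕ → ℕ → Set ℤ) (hΓ : ∀ n j, Full M (Γ n j)) (N : ℕ) :
    ∀ (n : ℕ) (ξ δ : ℝ), 0 < δ → ∃ S : Finset ℤ, (↑S : Set ℤ) ⊆ MixN p q Γ n ∧
      1 - δ - EE A p N ξ * (1 - M (ξ / (p : ℝ) ^ N)) ≤ ∑ x ∈ S, M (ξ + x) := by
  have hq := h.par.q2
  induction N with
  | zero =>
    intro n ξ δ hδ
    refine ⟨{0}, ?_, ?_⟩
    · intro z hz
      rw [mem_coe, mem_singleton] at hz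
      exact Or.inl hz
    · simp [EE]
      linarith
  | succ N ih =>
    intro n ξ δ hδ
    obtain ⟨S0, hS0, hs0⟩ := ih (n + 1) (ξ / p) δ hδ
    have hch : ∀ j : ℕ, ∃ S : Finset ℤ, (↑S : Set ℤ) ⊆ Γ n j ∧
        1 - δ ≤ ∑ x ∈ S, M ((ξ + j) / p + x) := fun j => hΓ n j _ δ hδ
    choose Sj hSj hsj using hch
    obtain ⟨S, hS, hsum⟩ := sum_union h (fun j => if j = 0 then S0 else Sj j) ξ
    refine ⟨S, ?_, ?_⟩
    · intro z hz
      obtain ⟨j, hj, x, hx, rfl⟩ := (hS z).1 (mem_coe.1 hz)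
      by_cases hj0 : j = 0
      · subst hj0
        simp only [if_true] at hx
        rcases hS0 (mem_coe.2 hx) with rfl | ⟨m, j', h1, h2, γ, hγ, rfl⟩
        · left; simp
        · right
          refine ⟨m + 1, j', h1, h2, γ, ?_, ?_⟩
          · have : n + 1 + m = n + (m + 1) := by ring
            show γ ∈ Γ (n + (m + 1)) j'
            rw [← this]
            exact hγ
          · push_cast
            ring
      · simp only [if_neg hj0] at hx
        right
        refine ⟨0, j, by omega, hj, x, hSj j (mem_coe.2 hx), ?_⟩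
        simp
    · rw [hsum]
      obtain ⟨q', rfl⟩ : ∃ q', q = q' + 1 := ⟨q - 1, by omega⟩
      rw [Finset.sum_range_succ']
      have hA := h.A_sum ξ
      rw [Finset.sum_range_succ'] at hA
      have e1 : ∑ k ∈ range q', A (ξ + ((k + 1 : ℕ) : ℝ)) * (1 - δ) ≤
          ∑ k ∈ range q', A (ξ + ((k + 1 : ℕ) : ℝ)) *
          ∑ x ∈ (if k + 1 = 0 then S0 else Sj (k + 1)), M ((ξ + ((k + 1 : ℕ) : ℝ)) / p + x) := by
        refine Finset.sum_le_sum fun k _ => ?_
        rw [if_neg (by omega)]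
        exact mul_le_mul_of_nonneg_left (hsj (k + 1)) (h.A_nonneg _)
      rw [← Finset.sum_mul] at e1
      have e2 : A (ξ + ((0 : ℕ) : ℝ)) * (1 - δ - EE A p N (ξ / p) *
          (1 - M (ξ / p / (p : ℝ) ^ N))) ≤ A (ξ + ((0 : ℕ) : ℝ)) *
          ∑ x ∈ (if (0 : ℕ) = 0 then S0 else Sj 0), M ((ξ + ((0 : ℕ) : ℝ)) / p + x) := by
        rw [if_pos rfl, Nat.cast_zero, add_zero]
        exact mul_le_mul_of_nonneg_left hs0 (h.A_nonneg _)
      rw [EE_succ h]
      have e3 : ξ / (p : ℝ) ^ (N + 1) = ξ / p / (p : ℝ) ^ N := by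
        rw [div_div, pow_succ, mul_comm]
      rw [e3]
      rw [Nat.cast_zero, add_zero] at e2 hA
      have e4 : ∑ k ∈ range q', A (ξ + ((k + 1 : ℕ) : ℝ)) = 1 - A ξ := by linarith
      rw [e4] at e1
      rw [Nat.cast_zero, add_zero]
      nlinarith

theorem b2 : S_B2 := by
  intro p q A M h Γ hg hf
  refine ⟨good_mix h.par Γ hg, ?_⟩
  intro ξ δ hδ
  have h1 := tendsto_M h ξ (l := fun n => n) tendsto_id
  obtain ⟨N, hN⟩ := (h1.eventually_const_lt (show 1 - δ / 2 < 1 by linarith)).exists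
  obtain ⟨S, hS, hs⟩ := full_aux h Γ hf N 0 ξ (δ / 2) (by linarith)
  refine ⟨S, ?_, ?_⟩
  · have : MixN p q Γ 0 = Mix p q Γ := by
      unfold MixN
      simp only [zero_add]
    rwa [this] at hS
  · refine le_trans ?_ hs
    have h2 := EE_nonneg h N ξ
    have h3 := EE_le_one h N ξ
    have h4 := h.M_le_one (ξ / (p : ℝ) ^ N)
    nlinarith

end

end Pool.Agent.R97.BD
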