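import Pool.Agent.R97.BD.Comp

/-! MP_5269d5_an: the digit map `phi`, the standard spectrum. -/

open Finset Filter Topology

namespace Pool.Agent.R97.BD

theorem phi_zero (p q : ℕ) : phi p q 0 = 0 := by simp [phi]

theorem phi_step (p : ℕ) {q : ℕ} (hq : 2 ≤ q) (W a : ℕ) (ha : a < q) :
    phi p q (q * W + a) = a + p * phi p q W := by
  unfold phi
  rcases Nat.eq_zero_or_pos (q * W + a) with h0 | hpos
  · have h1 : a = 0 := by omega
    have h2 : q * W = 0 := by omega
    have h3 : W = 0 := by
      rcases Nat.mul_eq_zero.1 h2 with h | h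
      · omega
      · exact h
    subst h1 h3
    simp
  · rw [Nat.digits_def' (by omega) hpos, Nat.ofDigits_cons]
    have e1 : (q * W + a) % q = a := by
      rw [Nat.mul_add_mod, Nat.mod_eq_of_lt ha]
    have e2 : (q * W + a) / q = W := by
      rw [Nat.mul_add_div (by omega), Nat.div_eq_of_lt ha, add_zero]
    rw [e1, e2]


theorem exists_step {q : ℕ} (hq : 2 ≤ q) (W : ℕ) : ∃ W' a, a < q ∧ W = q * W' + a ∧ W' ≤ W :=
  ⟨W / q, W % q, Nat.mod_lt _ (by omega), (Nat.div_add_mod W q).symm, Nat.div_le_self _ _⟩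

/-- `2 phi(W) < p^b` for `W < q^b` -/
theorem phi_lt {p q : ℕ} (h : Par p q) (b : ℕ) : ∀ W, W < q ^ b → 2 * phi p q W < p ^ b := by
  have hq := h.q2
  have hp := h.pq
  induction b with
  | zero =>
    intro W hW
    have : W = 0 := by simpa using hW
    subst this
    simp [phi_zero]
  | succ b ih =>
    intro W hW
    obtain ⟨W', a, ha, rfl, _⟩ := exists_step hq W
    rw [phi_step p hq W' a ha]
    have h1 : W' < q ^ b := by
      rw [pow_succ, mul_comm (q ^ b)] at hW
      by_contra hcon
      push Not at hcon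
      have := Nat.mul_le_mul_left q hcon
      omega
    have h2 := ih W' h1
    have h3 : p * (2 * phi p q W' + 1) ≤ p * p ^ b := Nat.mul_le_mul_left p h2
    have h4 : p * (2 * phi p q W' + 1) = 2 * (p * phi p q W') + p := by ring
    rw [pow_succ, mul_comm (p ^ b) p]
    omega

/-- strong form of the Z-number property for `phi` -/
theorem phi_sub {p q : ℕ} (h : Par p q) (b : ℕ) : ∀ W V, W < q ^ b → V < q ^ b → W ≠ V →
    ∃ (i : ℕ) (u : ℤ), i < b ∧ ¬ (q : ℤ) ∣ u ∧
      (phi p q W : ℤ) - phi p q V = (p : ℤ) ^ i * u := by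
  have hq := h.q2
  induction b with
  | zero =>
    intro W V hW hV hne
    simp only [pow_zero, Nat.lt_one_iff] at hW hV
    exact absurd (hW.trans hV.symm) hne
  | succ b ih =>
    intro W V hW hV hne
    obtain ⟨W', a, ha, rfl, _⟩ := exists_step hq W
    obtain ⟨V', a', ha', rfl, _⟩ := exists_step hq V
    rw [phi_step p hq W' a ha, phi_step p hq V' a' ha']
    have hlt : ∀ {X c : ℕ}, q * X + c < q ^ (b + 1) → X < q ^ b := by
      intro X c hX
      rw [pow_succ, mul_comm (q ^ b)] at hX
      by_contra hcon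
      push Not at hcon
      have := Nat.mul_le_mul_left q hcon
      omega
    by_cases haa : a = a'
    · subst haa
      have hWV : W' ≠ V' := fun h => hne (by rw [h])
      obtain ⟨i, u, hi, hu, e⟩ := ih W' V' (hlt hW) (hlt hV) hWV
      refine ⟨i + 1, u, by omega, hu, ?_⟩
      push_cast
      rw [pow_succ]
      linear_combination (p : ℤ) * e
    · refine ⟨0, (a : ℤ) - a' + p * ((phi p q W' : ℤ) - phi p q V'), by omega, ?_, ?_⟩
      · intro hdvd
        have h1 : (q : ℤ) ∣ (p : ℤ) * ((phi p q W' : ℤ) - phi p q V') :=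
          Dvd.dvd.mul_right (by exact_mod_cast h.dvd) _
        have h2 : (q : ℤ) ∣ (a : ℤ) - a' := (Int.dvd_add_left h1).1 hdvd
        have h3 : |(a : ℤ) - a'| < q := by
          rw [abs_lt]; constructor <;> omega
        have h4 := Int.eq_zero_of_abs_lt_dvd h2 h3
        apply haa
        omega
      · push_cast
        ring

theorem phi_inj {p q : ℕ} (h : Par p q) : Function.Injective (phi p q) := by
  intro W V hWV
  by_contra hne
  obtain ⟨i, u, _, hu, e⟩ := phi_sub h (W + V + 1) W V
    (lt_of_lt_of_le (Nat.lt_pow_self (by have := h.q2; omega)) (Nat.pow_le_pow_right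
      (by have := h.q2; omega) (by omega)))
    (lt_of_lt_of_le (Nat.lt_pow_self (by have := h.q2; omega)) (Nat.pow_le_pow_right
      (by have := h.q2; omega) (by omega))) hne
  rw [hWV, sub_self] at e
  have hp : (p : ℤ) ≠ 0 := by
    have := h.q2
    have := h.pq
    have : p ≠ 0 := by omega
    exact_mod_cast this
  rcases mul_eq_zero.1 e.symm with h1 | h1
  · exact absurd h1 (pow_ne_zero _ hp)
  · rw [h1] at hu
    exact hu (dvd_zero _)

theorem lt_pow_big {q : ℕ} (hq : 2 ≤ q) (W n : ℕ) (h : W ≤ n) : W < q ^ n :=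
  lt_of_lt_of_le (Nat.lt_pow_self (by omega)) (Nat.pow_le_pow_right (by omega) h)

theorem good_Lam0 {p q : ℕ} (h : Par p q) : Good p q (Lam0 p q) := by
  rintro _ ⟨W, rfl⟩ _ ⟨V, rfl⟩ hne
  have hWV : W ≠ V := fun h => hne (by rw [h])
  obtain ⟨i, u, _, hu, e⟩ := phi_sub h (W + V) W V (lt_pow_big h.q2 _ _ (by omega))
    (lt_pow_big h.q2 _ _ (by omega)) hWV
  exact ⟨i, u, hu, e⟩

section
variable {p q : ℕ} {A M : ℝ → ℝ}

/-- sum over a block of digits -/
theorem sum_phi (h : Ax p q A M) (b : ℕ) : ∀ t : ℝ,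
    ∑ W ∈ range (q ^ b), EE A p b (t + phi p q W) = 1 := by
  have hq := h.par.q2
  induction b with
  | zero =>
    intro t
    simp [EE]
  | succ b ih =>
    intro t
    have e1 : ∑ W ∈ range (q ^ (b + 1)), EE A p (b + 1) (t + phi p q W) =
        ∑ a ∈ range q, ∑ W ∈ range (q ^ b), EE A p (b + 1) (t + phi p q (q * W + a)) := by
      rw [Finset.sum_comm, ← Finset.sum_product' (s := range (q ^ b)) (t := range q)
        (f := fun W a => EE A p (b + 1) (t + phi p q (q * W + a)))]
      symm
      refine Finset.sum_bij' (fun x _ => q * x.1 + x.2) (fun W _ => (W / q, W % q)) ?_ ?_ ?_ ?_ ?_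
      · rintro ⟨W, a⟩ hx
        rw [mem_product, mem_range, mem_range] at hx
        rw [mem_range, pow_succ]
        simp only at hx ⊢
        have : q * (W + 1) ≤ q * q ^ b := Nat.mul_le_mul_left q hx.1
        rw [mul_comm (q ^ b) q]
        have e : q * (W + 1) = q * W + q := by ring
        omega
      · intro W hW
        rw [mem_range, pow_succ] at hW
        rw [mem_product, mem_range, mem_range]
        exact ⟨Nat.div_lt_of_lt_mul (by rwa [mul_comm]), Nat.mod_lt _ (by omega)⟩
      · rintro ⟨W, a⟩ hx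
        rw [mem_product, mem_range, mem_range] at hx
        simp only at hx ⊢
        rw [Nat.mul_add_mod, Nat.mod_eq_of_lt hx.2, Nat.mul_add_div (by omega),
          Nat.div_eq_of_lt hx.2, add_zero]
      · intro W _
        exact Nat.div_add_mod W q
      · intro x _
        rfl
    rw [e1]
    have e2 : ∀ a ∈ range q, ∑ W ∈ range (q ^ b), EE A p (b + 1) (t + phi p q (q * W + a)) =
        A (t + a) := by
      intro a ha
      rw [mem_range] at ha
      have e3 : ∀ W ∈ range (q ^ b), EE A p (b + 1) (t + phi p q (q * W + a)) =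
          A (t + a) * EE A p b ((t + a) / p + phi p q W) := by
        intro W _
        rw [EE_succ h, phi_step p hq W a ha]
        have hp := h.p_pos
        congr 1
        · have e4 : t + ((a + p * phi p q W : ℕ) : ℝ) = (t + a) +
              (((p : ℤ) * (phi p q W : ℤ) : ℤ) : ℝ) := by push_cast; ring
          rw [e4]
          exact A_add_dvd h _ (Dvd.dvd.mul_right (by exact_mod_cast h.par.dvd) _)
        · congr 1
          push_cast
          field_simp
          ring
      rw [Finset.sum_congr rfl e3, ← Finset.mul_sum, ih, mul_one]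
    rw [Finset.sum_congr rfl e2]
    exact h.A_sum t

theorem b3 : S_B3 := by
  intro p q A M h
  refine ⟨good_Lam0 h.par, ?_⟩
  have hq := h.par.q2
  set S : ℕ → Finset ℕ := fun k => (range (q ^ k)).image (phi p q) with hS
  have hmono : Monotone S := by
    intro a b hab
    apply image_subset_image
    apply range_mono
    exact Nat.pow_le_pow_right (by omega) hab
  obtain ⟨c, hc, hlow⟩ := h.M_low
  have key := comp h S hmono (l := fun k => k) tendsto_id (fun k ξ => by
    rw [hS]
    simp only
    rw [Finset.sum_image (fun x _ y _ hxy => phi_inj h.par hxy)]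
    exact sum_phi h k ξ) hc (by
    intro ξ
    have h1 := (tendsto_div_pow h |ξ| (l := fun k => k) tendsto_id)
    obtain ⟨K0, hK0⟩ := eventually_atTop.1 (h1.eventually_lt_const (show (0 : ℝ) < 1 / 4 by
      norm_num))
    refine ⟨K0, fun k hk x hx => hlow _ ?_⟩
    have h2 := hK0 k hk
    rw [hS] at hx
    simp only at hx
    obtain ⟨W, hW, rfl⟩ := mem_image.1 hx
    have h3 := phi_lt h.par k W (mem_range.1 hW)
    have hpk : (0 : ℝ) < (p : ℝ) ^ k := pow_pos h.p_pos k
    have h4 : (phi p q W : ℝ) / (p : ℝ) ^ k ≤ 1 / 2 := by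
      rw [div_le_iff₀ hpk]
      have : (2 * phi p q W : ℝ) ≤ (p : ℝ) ^ k := by exact_mod_cast h3.le
      linarith
    have h5 : (0 : ℝ) ≤ (phi p q W : ℝ) / (p : ℝ) ^ k := by positivity
    rw [add_div]
    have h6 : |ξ / (p : ℝ) ^ k| = |ξ| / (p : ℝ) ^ k := by
      rw [abs_div, abs_of_pos hpk]
    have h7 := abs_add_le (ξ / (p : ℝ) ^ k) ((phi p q W : ℝ) / (p : ℝ) ^ k)
    rw [h6, abs_of_nonneg h5] at h7
    linarith)
  have hset : {z : ℤ | ∃ k, ∃ x ∈ S k, z = (x : ℤ)} = Lam0 p q := by
    ext z
    constructor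
    · rintro ⟨k, x, hx, rfl⟩
      obtain ⟨W, _, rfl⟩ := mem_image.1 hx
      exact ⟨W, rfl⟩
    · rintro ⟨W, rfl⟩
      exact ⟨W, phi p q W, mem_image.2 ⟨W, mem_range.2 (lt_pow_big hq _ _ le_rfl), rfl⟩, rfl⟩
  rwa [hset] at key

end

end Pool.Agent.R97.BD
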