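import Pool.Agent.R97.BD.Phi

/-! MP_5269d5_an (helper711): the sparse spectrum, basic facts. -/

open Finset Filter Topology

namespace Pool.Agent.R97.BD

/-- block length -/
def bb (q k : ℕ) : ℕ := q ^ LL q k + 5

theorem LL_succ (q k : ℕ) : LL q (k + 1) = LL q k + bb q k := rfl

theorem LL_lt_succ (q k : ℕ) : LL q k < LL q (k + 1) := by
  rw [LL_succ]; unfold bb; omega

theorem LL_strictMono (q : ℕ) : StrictMono (LL q) := strictMono_nat_of_lt_succ (LL_lt_succ q)

theorem Par.p4 {p q : ℕ} (h : Par p q) : 4 ≤ p := by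
  have := h.q2
  have := h.pq
  omega

theorem mem_SS_succ {p q k x : ℕ} : x ∈ SS p q (k + 1) ↔
    ∃ x' ∈ SS p q k, ∃ W < q ^ bb q k, x = x' + p ^ LL q k * gz p q k W := by
  simp only [SS, mem_image, mem_product, mem_range, Prod.exists, bb]
  constructor
  · rintro ⟨a, b, ⟨h1, h2⟩, rfl⟩
    exact ⟨a, h1, b, h2, rfl⟩
  · rintro ⟨a, h1, b, h2, rfl⟩
    exact ⟨a, b, ⟨h1, h2⟩, rfl⟩

theorem gz_zero (p q k : ℕ) : gz p q k 0 = 0 := by simp [gz]

theorem gz_pos {p q k W : ℕ} (hW : W ≠ 0) : gz p q k W = phi p q W + q * p ^ (bb q k + W) := by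
  simp [gz, hW, bb]

theorem SS_mono {p q : ℕ} (hq : 2 ≤ q) : Monotone (SS p q) := by
  apply monotone_nat_of_le_succ
  intro k x hx
  rw [mem_SS_succ]
  refine ⟨x, hx, 0, by positivity, ?_⟩
  rw [gz_zero]; simp

/-- upper bound for an element with last block `W`, from the bound for the lower part -/
theorem bound_aux {p q : ℕ} (h : Par p q) {k x' W : ℕ} (hx : x' * p ^ 3 ≤ p ^ LL q (k + 1))
    (hW : W < q ^ bb q k) : x' + p ^ LL q k * gz p q k W ≤ p ^ (LL q (k + 1) + W + 1) := by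
  have hp := h.p4
  have hp0 : 0 < p := by omega
  set Z := p ^ LL q (k + 1) with hZ
  have hZ0 : 0 < Z := by positivity
  have h64 : 64 ≤ p ^ 3 := by
    calc 64 = 4 ^ 3 := by norm_num
      _ ≤ p ^ 3 := Nat.pow_le_pow_left hp 3
  have hx2 : x' * 64 ≤ Z := (Nat.mul_le_mul_left x' h64).trans hx
  rcases Nat.eq_zero_or_pos W with h0 | h0
  · subst h0
    rw [gz_zero, mul_zero, add_zero, add_zero, pow_succ, ← hZ]
    have : Z * 1 ≤ Z * p := Nat.mul_le_mul_left Z (by omega)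
    omega
  · rw [gz_pos (by omega), mul_add]
    have h1 := phi_lt h (bb q k) W hW
    have h2 : 2 * (p ^ LL q k * phi p q W) ≤ Z := by
      rw [hZ, LL_succ, pow_add]
      calc 2 * (p ^ LL q k * phi p q W) = p ^ LL q k * (2 * phi p q W) := by ring
        _ ≤ p ^ LL q k * p ^ bb q k := Nat.mul_le_mul_left _ h1.le
    have h3 : p ^ LL q k * (q * p ^ (bb q k + W)) = q * (Z * p ^ W) := by
      rw [hZ, LL_succ, pow_add, pow_add]; ring
    have h4 : p ^ (LL q (k + 1) + W + 1) = p * (Z * p ^ W) := by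
      rw [pow_succ, pow_add, ← hZ]; ring
    rw [h3, h4]
    have h5 : 2 * q * (Z * p ^ W) ≤ p * (Z * p ^ W) := Nat.mul_le_mul_right _ h.pq
    have h6 : Z * 4 ≤ Z * p ^ W := by
      apply Nat.mul_le_mul_left
      calc 4 ≤ p := hp
        _ = p ^ 1 := (pow_one p).symm
        _ ≤ p ^ W := Nat.pow_le_pow_right hp0 h0
    have h7 : 4 * (Z * p ^ W) ≤ p * (Z * p ^ W) := Nat.mul_le_mul_right _ hp
    have h8 : 2 * q * (Z * p ^ W) = 2 * (q * (Z * p ^ W)) := by ring
    omega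

theorem SS_bound {p q : ℕ} (h : Par p q) (k : ℕ) : ∀ x ∈ SS p q k, x * p ^ 3 ≤ p ^ LL q (k + 1) := by
  have hp := h.p4
  induction k with
  | zero =>
    intro x hx
    simp only [SS, mem_singleton] at hx
    subst hx
    rw [zero_mul]; positivity
  | succ k ih =>
    intro x hx
    obtain ⟨x', hx', W, hW, rfl⟩ := mem_SS_succ.1 hx
    have h1 := bound_aux h (ih x' hx') hW
    calc (x' + p ^ LL q k * gz p q k W) * p ^ 3 ≤ p ^ (LL q (k + 1) + W + 1) * p ^ 3 :=
          Nat.mul_le_mul_right _ h1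
      _ = p ^ (LL q (k + 1) + W + 1 + 3) := by rw [← pow_add]
      _ ≤ p ^ LL q (k + 1 + 1) := by
        apply Nat.pow_le_pow_right (by omega)
        rw [LL_succ q (k + 1)]
        have h2 : bb q k ≤ LL q (k + 1) := by rw [LL_succ]; omega
        have h3 : q ^ bb q k ≤ q ^ LL q (k + 1) := Nat.pow_le_pow_right (by have := h.q2; omega) h2
        have h4 : bb q (k + 1) = q ^ LL q (k + 1) + 5 := rfl
        omega

theorem SS_elem_le {p q : ℕ} (h : Par p q) {k x' W : ℕ} (hx : x' ∈ SS p q k)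
    (hW : W < q ^ bb q k) : x' + p ^ LL q k * gz p q k W ≤ p ^ (LL q (k + 1) + W + 1) :=
  bound_aux h (SS_bound h k x' hx) hW

/-- separation of elements with different last blocks -/
theorem SS_sep {p q : ℕ} (h : Par p q) {k x' y' V W : ℕ} (hy : y' ∈ SS p q k)
    (hVW : V < W) (hW : W < q ^ bb q k) :
    (y' + p ^ LL q k * gz p q k V) + p ^ (LL q (k + 1) + W) ≤ x' + p ^ LL q k * gz p q k W := by
  have hp := h.p4
  have h1 := SS_elem_le h hy (hVW.trans hW)
  have h2 : p ^ (LL q (k + 1) + V + 1) ≤ p ^ (LL q (k + 1) + W) :=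
    Nat.pow_le_pow_right (by omega) (by omega)
  have h3 : p ^ LL q k * gz p q k W = p ^ LL q k * phi p q W + q * p ^ (LL q (k + 1) + W) := by
    rw [gz_pos (by omega), mul_add, LL_succ, pow_add, pow_add, pow_add]; ring
  have h4 : 2 * p ^ (LL q (k + 1) + W) ≤ q * p ^ (LL q (k + 1) + W) :=
    Nat.mul_le_mul_right _ h.q2
  omega

end Pool.Agent.R97.BD
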